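import Pool.Agent.H537.FG.Poly
import Pool.Graph.R_seed8.Helper923.HMertens

/-! The residue class. -/

set_option autoImplicit false
set_option maxHeartbeats 4000000

open Finset Polynomial Filter

namespace Pool.Agent.H537.FG

open Pool.Agent.X50.LG Pool.Agent.N914.MR

theorem val_eq (F : Finset ℤ[X]) (n : ℤ) : val F n = (∏ f ∈ F, f).eval n := by
  unfold val
  rw [eval_prod]

theorem eval_congr (g : ℤ[X]) {p a b : ℕ} (h : a ≡ b [MOD p]) (hb : (p : ℤ) ∣ g.eval (b : ℤ)) :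
    (p : ℤ) ∣ g.eval (a : ℤ) := by
  have h1 : ((a : ℤ) - b) ∣ g.eval (a : ℤ) - g.eval (b : ℤ) := sub_dvd_eval_sub _ _ _
  have h2 : (p : ℤ) ∣ (a : ℤ) - b := by
    have := (Nat.modEq_iff_dvd.mp h.symm)
    exact this
  have h3 := dvd_add (h2.trans h1) hb
  simpa using h3

theorem root_nat {f : ℤ[X]} {p : ℕ} (hp : p.Prime) (h : HasRoot f p) :
    ∃ r : ℕ, (p : ℤ) ∣ f.eval (r : ℤ) := by
  have : Fact p.Prime := ⟨hp⟩
  obtain ⟨x, hx⟩ := h
  refine ⟨x.val, ?_⟩
  rw [← ZMod.intCast_zmod_eq_zero_iff_dvd]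
  have h1 : eval ((x.val : ℕ) : ZMod p) (f.map (Int.castRingHom (ZMod p))) =
      ((f.eval ((x.val : ℕ) : ℤ) : ℤ) : ZMod p) := by
    have := eval_intCast_map (Int.castRingHom (ZMod p)) f ((x.val : ℕ) : ℤ)
    simpa using this
  rw [← h1, ZMod.natCast_zmod_val, eval_map]
  exact hx

theorem choose_a (F : Finset ℤ[X]) (f₁ : ℤ[X]) (hadm : ∀ p : ℕ, p.Prime → om F p < p) (w z : ℕ)
    (hne : ∃ p ∈ Ioc w z, p.Prime ∧ HasRoot f₁ p) :
    ∃ a : ℕ, (a : ℝ) ≤ 2 * 4 ^ z ∧ w ≤ a ∧ (∀ p : ℕ, p.Prime → p ≤ w → ¬ (p : ℤ) ∣ val F a) ∧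
      ∀ p ∈ Ioc w z, p.Prime → HasRoot f₁ p → (p : ℤ) ∣ f₁.eval (a : ℤ) := by
  classical
  have h1 : ∀ p : ℕ, ∃ r : ℕ, p.Prime → (p ≤ w → ¬ (p : ℤ) ∣ val F r) ∧
      (w < p → HasRoot f₁ p → (p : ℤ) ∣ f₁.eval (r : ℤ)) := by
    intro p
    by_cases hp : p.Prime
    · by_cases hw : p ≤ w
      · have h2 := hadm p hp
        unfold om at h2
        have h3 : ∃ n ∈ range p, ¬ (p : ℤ) ∣ val F n := by
          by_contra hc
          push Not at hc
          rw [filter_true_of_mem hc, card_range] at h2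
          exact lt_irrefl _ h2
        obtain ⟨n, _, hn⟩ := h3
        exact ⟨n, fun _ => ⟨fun _ => hn, fun h => absurd hw (by omega)⟩⟩
      · by_cases hr : HasRoot f₁ p
        · obtain ⟨r, hr'⟩ := root_nat hp hr
          exact ⟨r, fun _ => ⟨fun h => absurd h hw, fun _ _ => hr'⟩⟩
        · exact ⟨0, fun _ => ⟨fun h => absurd h hw, fun _ h => absurd h hr⟩⟩
    · exact ⟨0, fun h => absurd h hp⟩
  choose r hr using h1
  set T : Finset ℕ := (Icc 1 z).filter Nat.Prime with hT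
  have hTp : ∀ p ∈ T, p.Prime := fun p hp => (mem_filter.mp hp).2
  have hpp : Set.Pairwise (T : Set ℕ) (Function.onFun Nat.Coprime fun p => p) := by
    intro p hp q hq hpq
    exact (Nat.coprime_primes (hTp p (mem_coe.mp hp)) (hTp q (mem_coe.mp hq))).mpr hpq
  have hs : ∀ i ∈ T, (fun p : ℕ => p) i ≠ 0 := fun p hp => (hTp p hp).ne_zero
  obtain ⟨k, hk⟩ := Nat.chineseRemainderOfFinset r (fun p => p) T hs hpp
  set P := ∏ p ∈ T, p with hP
  have hP4 : P ≤ 4 ^ z := by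
    have : P = primorial z := by
      unfold primorial
      rw [hP, hT]
      apply prod_congr _ fun _ _ => rfl
      ext p
      rw [mem_filter, mem_filter, mem_Icc, mem_range]
      constructor
      · rintro ⟨h1, h2⟩
        exact ⟨by omega, h2⟩
      · rintro ⟨h1, h2⟩
        exact ⟨⟨h2.one_le, by omega⟩, h2⟩
    rw [this]
    exact primorial_le_four_pow z
  have hPpos : 0 < P := prod_pos fun p hp => (hTp p hp).pos
  refine ⟨k % P + P, ?_, ?_, ?_, ?_⟩
  · have h2 : k % P < P := Nat.mod_lt _ hPpos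
    have h3 : k % P + P ≤ 2 * 4 ^ z := by omega
    exact_mod_cast h3
  · obtain ⟨p, hp, hpp', _⟩ := hne
    rw [mem_Ioc] at hp
    have h2 : p ∣ P := dvd_prod_of_mem _ (mem_filter.mpr ⟨mem_Icc.mpr ⟨hpp'.one_le, hp.2⟩, hpp'⟩)
    have h3 := Nat.le_of_dvd hPpos h2
    omega
  · intro p hp hpw hd
    by_cases hpz : p ≤ z
    · have hpT : p ∈ T := mem_filter.mpr ⟨mem_Icc.mpr ⟨hp.one_le, hpz⟩, hp⟩
      have h2 : k % P + P ≡ r p [MOD p] := by
        have e1 : k % P + P ≡ k [MOD P] := by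
          have := (Nat.mod_modEq k P).add_right P
          exact this.trans (by simp [Nat.ModEq])
        exact (e1.of_dvd (dvd_prod_of_mem _ hpT)).trans (hk p hpT)
      rw [val_eq] at hd
      have h3 := eval_congr _ h2.symm hd
      rw [← val_eq] at h3
      exact (hr p hp).1 hpw h3
    · obtain ⟨p', hp', _⟩ := hne
      rw [mem_Ioc] at hp'
      omega
  · intro p hp hpp' hroot
    rw [mem_Ioc] at hp
    have hpT : p ∈ T := mem_filter.mpr ⟨mem_Icc.mpr ⟨hpp'.one_le, hp.2⟩, hpp'⟩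
    have h2 : k % P + P ≡ r p [MOD p] := by
      have e1 : k % P + P ≡ k [MOD P] := by
        have := (Nat.mod_modEq k P).add_right P
        exact this.trans (by simp [Nat.ModEq])
      exact (e1.of_dvd (dvd_prod_of_mem _ hpT)).trans (hk p hpT)
    exact eval_congr _ h2 ((hr p hpp').2 hp.1 hroot)

/-- the size of the product of the values -/
theorem val_size (F : Finset ℤ[X]) (hF : ∀ f ∈ F, 0 < f.natDegree) :
    ∃ C : ℝ, 0 ≤ C ∧ ∃ n₁ : ℕ, ∀ n : ℕ, n₁ ≤ n →
      (∀ f ∈ F, n ≤ 2 * (f.eval (n : ℤ)).natAbs) ∧ val F n ≠ 0 ∧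
      Real.log ((val F n).natAbs : ℝ) ≤ deg F * Real.log n + C := by
  classical
  have h1 : ∀ f : ℤ[X], ∃ C : ℝ, ∃ n₁ : ℕ, f ∈ F → (0 ≤ C ∧ ∀ n : ℕ, n₁ ≤ n →
      n ≤ 2 * (f.eval (n : ℤ)).natAbs ∧
      |Real.log ((f.eval (n : ℤ)).natAbs : ℝ) - f.natDegree * Real.log n| ≤ C) := by
    intro f
    by_cases hf : f ∈ F
    · obtain ⟨C, hC, n₁, hn₁⟩ := value_size f (hF f hf)
      obtain ⟨n₂, hn₂⟩ := value_large f (hF f hf)
      exact ⟨C, max n₁ n₂, fun _ => ⟨hC, fun n hn => ⟨hn₂ n ((le_max_right _ _).trans hn),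
        hn₁ n ((le_max_left _ _).trans hn)⟩⟩⟩
    · exact ⟨0, 0, fun h => absurd h hf⟩
  choose Cf nf hCf using h1
  refine ⟨∑ f ∈ F, Cf f, sum_nonneg fun f hf => (hCf f hf).1, ∑ f ∈ F, nf f + 1, fun n hn => ?_⟩
  have hnf : ∀ f ∈ F, nf f ≤ n := fun f hf => by
    have := single_le_sum (f := nf) (fun i _ => Nat.zero_le _) hf
    omega
  have hne : ∀ f ∈ F, f.eval (n : ℤ) ≠ 0 := by
    intro f hf h0
    have := ((hCf f hf).2 n (hnf f hf)).1
    rw [h0] at this
    simp at this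
    omega
  refine ⟨fun f hf => ((hCf f hf).2 n (hnf f hf)).1, prod_ne_zero_iff.mpr hne, ?_⟩
  unfold val
  have hnp : (∏ f ∈ F, f.eval (n : ℤ)).natAbs = ∏ f ∈ F, (f.eval (n : ℤ)).natAbs :=
    map_prod Int.natAbsHom _ _
  rw [hnp, Nat.cast_prod, Real.log_prod fun f hf => by
    have := Int.natAbs_ne_zero.mpr (hne f hf)
    exact_mod_cast this]
  unfold deg
  push_cast
  rw [sum_mul, ← sum_add_distrib]
  refine sum_le_sum fun f hf => ?_
  have := (abs_le.mp ((hCf f hf).2 n (hnf f hf)).2).2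
  linarith

/-- coprimality -/
theorem fr_iff {E : ℤ} (hE : E ≠ 0) (m : ℕ) : IsCoprime E (m : ℤ) ↔ Fr E.natAbs.primeFactors m := by
  rw [Int.isCoprime_iff_gcd_eq_one]
  have h1 : Int.gcd E m = Nat.gcd E.natAbs m := by
    rw [Int.gcd_def, Int.natAbs_natCast]
  rw [h1]
  constructor
  · intro h p hp hd
    have h2 := Nat.dvd_gcd (Nat.dvd_of_mem_primeFactors hp) hd
    rw [h] at h2
    exact (Nat.prime_of_mem_primeFactors hp).one_lt.ne' (Nat.dvd_one.mp h2)
  · intro h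
    by_contra hc
    obtain ⟨p, hp, hd⟩ := Nat.exists_prime_and_dvd hc
    refine h p ?_ (hd.trans (Nat.gcd_dvd_right _ _))
    rw [Nat.mem_primeFactors]
    exact ⟨hp, hd.trans (Nat.gcd_dvd_left _ _), Int.natAbs_ne_zero.mpr hE⟩

/-- the number of the prime factors -/
theorem card_log_le {E w : ℕ} (hE : E ≠ 0) (hw : ∀ p ∈ E.primeFactors, w < p) (hw0 : 0 < w) :
    (E.primeFactors.card : ℝ) * Real.log w ≤ Real.log E := by
  have h1 : w ^ E.primeFactors.card ≤ E := by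
    calc w ^ E.primeFactors.card = ∏ _p ∈ E.primeFactors, w := by rw [prod_const]
      _ ≤ ∏ p ∈ E.primeFactors, p := prod_le_prod' fun p hp => (hw p hp).le
      _ ≤ E := Nat.le_of_dvd (Nat.pos_of_ne_zero hE) (Nat.prod_primeFactors_dvd E)
  have h2 : ((w : ℝ)) ^ E.primeFactors.card ≤ E := by exact_mod_cast h1
  have hw0' : (0 : ℝ) < w := by exact_mod_cast hw0
  have h3 := Real.log_le_log (by positivity) h2
  rwa [Real.log_pow] at h3

/-- the sum of the reciprocals -/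
theorem recip_le {A : Finset ℕ} {w z : ℕ} (hA : ∀ p ∈ A, p.Prime ∧ w < p) (hz : 0 < z) :
    ∑ p ∈ A, rc p ≤ ∑ p ∈ (Ioc w z).filter Nat.Prime, (1 : ℝ) / p + (A.card : ℝ) / z := by
  classical
  have hz0 : (0 : ℝ) < z := by exact_mod_cast hz
  rw [← sum_filter_add_sum_filter_not A (fun p => p ≤ z)]
  apply add_le_add
  · calc ∑ p ∈ A.filter (fun p => p ≤ z), rc p = ∑ p ∈ A.filter (fun p => p ≤ z), (1 : ℝ) / p :=
          sum_congr rfl fun p hp => rc_eq (hA p (mem_filter.mp hp).1).1.pos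
      _ ≤ _ := by
          apply sum_le_sum_of_subset_of_nonneg
          · intro p hp
            rw [mem_filter] at hp
            rw [mem_filter, mem_Ioc]
            exact ⟨⟨(hA p hp.1).2, hp.2⟩, (hA p hp.1).1⟩
          · intro _ _ _
            positivity
  · calc ∑ p ∈ A.filter (fun p => ¬ p ≤ z), rc p ≤ ∑ p ∈ A.filter (fun p => ¬ p ≤ z), (1 : ℝ) / z := by
          refine sum_le_sum fun p hp => ?_
          rw [mem_filter] at hp
          rw [rc_eq (hA p hp.1).1.pos]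
          apply one_div_le_one_div_of_le hz0
          have : z ≤ p := by omega
          exact_mod_cast this
      _ = ((A.filter (fun p => ¬ p ≤ z)).card : ℝ) / z := by
          rw [sum_const, nsmul_eq_mul]
          ring
      _ ≤ _ := by
          apply div_le_div_of_nonneg_right _ hz0.le
          exact_mod_cast card_filter_le _ _

theorem log_small : Real.log (31 / 20) ≤ 9 / 20 := by
  rw [Real.log_le_iff_le_exp (by norm_num)]
  have := Real.quadratic_le_exp_of_nonneg (x := 9 / 20) (by norm_num)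
  refine le_trans ?_ this
  norm_num

end Pool.Agent.H537.FG
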