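import Pool.Agent.H537.FG.Dev

/-! Comparison of the sums over the two factors. -/

set_option autoImplicit false
set_option maxHeartbeats 4000000

open Finset

namespace Pool.Agent.H537.FG

open Pool.Agent.N914.MR

/-- the weights -/
noncomputable def wt (Q X : ℕ) (m : ℕ) : ℝ := min (Q : ℝ) ((X : ℝ) / m - Q)

theorem Z_bound {Q X : ℕ} (hQ : 1 ≤ Q) (hM : 2 ≤ X / Q) :
    |∑ m ∈ Ioc 0 (X / Q), wt Q X m - X * Real.log 2| ≤ 5 * Q := by
  set M := X / Q with hMd
  set M2 := M / 2 with hM2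
  have hM21 : 1 ≤ M2 := by omega
  have hQ0 : (0 : ℝ) < Q := by exact_mod_cast hQ
  have hMQ : M * Q ≤ X := Nat.div_mul_le_self X Q
  have hXM : X < (M + 1) * Q := by
    have := Nat.lt_mul_div_succ X hQ
    rw [mul_comm]
    exact this
  have hlog2 : 0 < Real.log 2 := Real.log_pos (by norm_num)
  have e1 : ∑ m ∈ Ioc 0 M, wt Q X m = ∑ m ∈ Ioc 0 M2, wt Q X m + ∑ m ∈ Ioc M2 M, wt Q X m := by
    rw [← sum_union]
    · congr 1
      ext m
      rw [mem_union, mem_Ioc, mem_Ioc, mem_Ioc]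
      omega
    · rw [disjoint_left]
      intro m h1 h2
      rw [mem_Ioc] at h1 h2
      omega
  have e2 : ∑ m ∈ Ioc 0 M2, wt Q X m = M2 * Q := by
    calc ∑ m ∈ Ioc 0 M2, wt Q X m = ∑ m ∈ Ioc 0 M2, (Q : ℝ) := by
          refine sum_congr rfl fun m hm => ?_
          rw [mem_Ioc] at hm
          unfold wt
          apply min_eq_left
          have hm0 : (0 : ℝ) < m := by
            have : 0 < m := hm.1
            exact_mod_cast this
          have h1 : 2 * (m * Q) ≤ X := by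
            have : 2 * m ≤ M := by omega
            calc 2 * (m * Q) = (2 * m) * Q := by ring
              _ ≤ M * Q := Nat.mul_le_mul_right _ this
              _ ≤ X := hMQ
          have h2 : (2 : ℝ) * (m * Q) ≤ X := by exact_mod_cast h1
          have h3 : 2 * (Q : ℝ) ≤ X / m := by
            rw [le_div_iff₀ hm0]
            linarith
          linarith
      _ = M2 * Q := by simp
  have e3 : ∑ m ∈ Ioc M2 M, wt Q X m = X * ∑ m ∈ Ioc M2 M, (1 : ℝ) / m - (M - M2) * Q := by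
    calc ∑ m ∈ Ioc M2 M, wt Q X m = ∑ m ∈ Ioc M2 M, ((X : ℝ) * (1 / m) - Q) := by
          refine sum_congr rfl fun m hm => ?_
          rw [mem_Ioc] at hm
          unfold wt
          rw [mul_one_div]
          apply min_eq_right
          have hm0 : (0 : ℝ) < m := by
            have : 0 < m := by omega
            exact_mod_cast this
          have h1 : X ≤ 2 * (m * Q) := by
            have : M + 1 ≤ 2 * m := by omega
            calc X ≤ (M + 1) * Q := hXM.le
              _ ≤ (2 * m) * Q := Nat.mul_le_mul_right _ this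
              _ = 2 * (m * Q) := by ring
          have h2 : (X : ℝ) ≤ 2 * (m * Q) := by exact_mod_cast h1
          have h3 : (X : ℝ) / m ≤ 2 * (Q : ℝ) := by
            rw [div_le_iff₀ hm0]
            linarith
          linarith
      _ = _ := by
          rw [sum_sub_distrib, ← mul_sum]
          simp only [sum_const, Nat.card_Ioc, nsmul_eq_mul]
          have : M2 ≤ M := by omega
          push_cast [this]
          ring
  have hM20 : (0 : ℝ) < M2 := by exact_mod_cast hM21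
  have hM0 : (0 : ℝ) < M := by
    have : 0 < M := by omega
    exact_mod_cast this
  have hle1 : (M : ℝ) ≤ 2 * M2 + 1 := by
    have : M ≤ 2 * M2 + 1 := by omega
    exact_mod_cast this
  have hle2 : 2 * (M2 : ℝ) ≤ M := by
    have : 2 * M2 ≤ M := by omega
    exact_mod_cast this
  have h1 : ∑ m ∈ Ioc M2 M, (1 : ℝ) / m ≤ Real.log 2 + 1 / M2 := by
    refine (harm_le hM21 (by omega)).trans ?_
    rw [← Real.log_div hM0.ne' hM20.ne']
    have a1 : (M : ℝ) / M2 ≤ 2 * (1 + 1 / (2 * M2)) := by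
      rw [div_le_iff₀ hM20]
      have : 2 * (1 + 1 / (2 * (M2 : ℝ))) * M2 = 2 * M2 + 1 := by field_simp
      rw [this]
      exact hle1
    calc Real.log ((M : ℝ) / M2) ≤ Real.log (2 * (1 + 1 / (2 * M2))) :=
          Real.log_le_log (by positivity) a1
      _ = Real.log 2 + Real.log (1 + 1 / (2 * M2)) := Real.log_mul (by norm_num) (by positivity)
      _ ≤ Real.log 2 + 1 / M2 := by
          have := Real.log_le_sub_one_of_pos (x := 1 + 1 / (2 * (M2 : ℝ))) (by positivity)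
          have a2 : 1 / (2 * (M2 : ℝ)) ≤ 1 / M2 := by
            apply one_div_le_one_div_of_le hM20
            linarith
          linarith
  have h2 : Real.log 2 - 1 / M2 ≤ ∑ m ∈ Ioc M2 M, (1 : ℝ) / m := by
    refine le_trans ?_ (harm_ge (by omega))
    have a1 : Real.log 2 + Real.log ((M2 : ℝ) + 1) = Real.log (2 * ((M2 : ℝ) + 1)) :=
      (Real.log_mul (by norm_num) (by positivity)).symm
    have a2 : Real.log (2 * ((M2 : ℝ) + 1)) - Real.log ((M : ℝ) + 1) ≤ 1 / M2 := by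
      rw [← Real.log_div (by positivity) (by positivity)]
      have a3 := Real.log_le_sub_one_of_pos (x := 2 * ((M2 : ℝ) + 1) / ((M : ℝ) + 1)) (by positivity)
      refine a3.trans ?_
      have a4 : 2 * ((M2 : ℝ) + 1) / ((M : ℝ) + 1) - 1 = (2 * M2 + 1 - M) / (M + 1) := by
        field_simp
        ring
      rw [a4, div_le_div_iff₀ (by positivity) hM20]
      nlinarith
    linarith
  have hX4 : (X : ℝ) ≤ 4 * M2 * Q := by
    have : X ≤ 4 * M2 * Q := by
      calc X ≤ (M + 1) * Q := hXM.le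
        _ ≤ (4 * M2) * Q := Nat.mul_le_mul_right _ (by omega)
    exact_mod_cast this
  have hX0 : (0 : ℝ) ≤ X := Nat.cast_nonneg _
  have hXM2 : (X : ℝ) * (1 / M2) ≤ 4 * Q := by
    rw [mul_one_div, div_le_iff₀ hM20]
    linarith
  have h1' := mul_le_mul_of_nonneg_left h1 hX0
  have h2' := mul_le_mul_of_nonneg_left h2 hX0
  rw [e1, e2, e3, abs_le]
  constructor
  · nlinarith
  · nlinarith

theorem sum_range_eq (f : ℕ → ℝ) (M : ℕ) : ∑ m ∈ range M, f (m + 1) = ∑ m ∈ Ioc 0 M, f m := by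
  induction M with
  | zero => simp
  | succ M ih =>
    rw [sum_range_succ, ih, ← Finset.insert_Ioc_right_eq_Ioc_add_one (Nat.zero_le M),
      sum_insert (by simp)]
    ring

theorem wt_nonneg {Q X m : ℕ} (hQ : 1 ≤ Q) (hm : 1 ≤ m) (hM : m ≤ X / Q) : 0 ≤ wt Q X m := by
  unfold wt
  apply le_min (Nat.cast_nonneg _)
  have hm0 : (0 : ℝ) < m := by exact_mod_cast hm
  have h1 : m * Q ≤ X := (Nat.le_div_iff_mul_le hQ).mp hM
  have h2 : (m : ℝ) * Q ≤ X := by exact_mod_cast h1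
  have h3 : (Q : ℝ) ≤ X / m := by
    rw [le_div_iff₀ hm0]
    linarith
  linarith

theorem wt_anti {Q X m : ℕ} (hm : 1 ≤ m) : wt Q X (m + 1) ≤ wt Q X m := by
  unfold wt
  apply min_le_min le_rfl
  have hm0 : (0 : ℝ) < m := by exact_mod_cast hm
  have : (X : ℝ) / ((m + 1 : ℕ) : ℝ) ≤ X / m := by
    apply div_le_div_of_nonneg_left (Nat.cast_nonneg _) hm0
    push_cast
    linarith
  linarith

theorem wt_eq {Q X m : ℕ} (hm : 1 ≤ m) (h : 2 * m ≤ X / Q) : wt Q X m = Q := by
  unfold wt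
  apply min_eq_left
  have hm0 : (0 : ℝ) < m := by exact_mod_cast hm
  have h1 : 2 * (m * Q) ≤ X := by
    calc 2 * (m * Q) = (2 * m) * Q := by ring
      _ ≤ X / Q * Q := Nat.mul_le_mul_right _ h
      _ ≤ X := Nat.div_mul_le_self X Q
  have h2 : (2 : ℝ) * (m * Q) ≤ X := by exact_mod_cast h1
  have h3 : 2 * (Q : ℝ) ≤ X / m := by
    rw [le_div_iff₀ hm0]
    linarith
  linarith

/-- the sum over the large factor -/
noncomputable def TQ (h : ℕ → ℝ) (A : Finset ℕ) (Q : ℕ) : ℝ :=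
  ∑ q ∈ (Ioc Q (2 * Q)).filter (Fr A), gg h q * (1 / (q : ℝ))

/-- the weighted sum over the small factor -/
noncomputable def WM (h : ℕ → ℝ) (A : Finset ℕ) (Q X : ℕ) : ℝ :=
  ∑ m ∈ (Ioc 0 (X / Q)).filter (Fr A), gg h m * wt Q X m

theorem TQ_eq (h : ℕ → ℝ) (A : Finset ℕ) (hA : ∀ p ∈ A, p.Prime) (Q : ℕ) :
    TQ h A Q = ∑ e ∈ Sf A (2 * Q), hh h e / (e : ℝ) * HA A (Q / e) (2 * Q / e) := by
  unfold TQ
  rw [swap h A hA (fun q => 1 / (q : ℝ)) Q (2 * Q)]
  refine sum_congr rfl fun e _ => ?_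
  unfold HA
  rw [div_mul_eq_mul_div, mul_div_assoc]
  congr 1
  rw [sum_div]
  refine sum_congr rfl fun j _ => ?_
  push_cast
  rw [div_div, mul_comm]

theorem TQ_approx {h : ℕ → ℝ} {Ch : ℝ} (h0 : ∀ p, p.Prime → 0 ≤ h p)
    (h1 : ∀ p, p.Prime → h p ≤ Ch / p) (hCh : 0 ≤ Ch) (A : Finset ℕ) (hA : ∀ p ∈ A, p.Prime)
    {Q : ℕ} (hQ : 1 ≤ Q) :
    |TQ h A Q - bp rc A * Real.log 2 * Sg h A (2 * Q)| ≤
      CR Ch * √(6 * 2 ^ A.card / (Q : ℝ)) := by
  set V := bp rc A with hV
  have hV0 : 0 ≤ V := bp_nonneg rc rc_le_one A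
  have hV1 : V ≤ 1 := bp_le_one rc rc_nonneg rc_le_one A
  have hlog2 : 0 < Real.log 2 := Real.log_pos (by norm_num)
  have hlog2' : Real.log 2 < 1 := Real.log_two_lt_d9.trans (by norm_num)
  have hQ0 : (0 : ℝ) < Q := by exact_mod_cast hQ
  have e1 : TQ h A Q - V * Real.log 2 * Sg h A (2 * Q) = ∑ e ∈ Sf A (2 * Q),
      hh h e / (e : ℝ) * (HA A (Q / e) (2 * Q / e) - V * Real.log 2) := by
    rw [TQ_eq h A hA]
    unfold Sg
    rw [mul_sum, ← sum_sub_distrib]
    refine sum_congr rfl fun e _ => ?_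
    ring
  rw [e1]
  calc |∑ e ∈ Sf A (2 * Q), hh h e / (e : ℝ) * (HA A (Q / e) (2 * Q / e) - V * Real.log 2)| ≤
      ∑ e ∈ Sf A (2 * Q), |hh h e / (e : ℝ) * (HA A (Q / e) (2 * Q / e) - V * Real.log 2)| :=
        abs_sum_le_sum_abs _ _
    _ ≤ ∑ e ∈ Sf A (2 * Q), √(6 * 2 ^ A.card / (Q : ℝ)) * (hh h e / √(e : ℝ)) := by
        refine sum_le_sum fun e he => ?_
        unfold Sf at he
        rw [mem_filter, mem_Icc] at he
        have he1 := he.1.1
        have he0 : (0 : ℝ) < e := by exact_mod_cast he1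
        have hh0 := hh_nonneg h0 e
        rw [abs_mul, abs_of_nonneg (by positivity)]
        have a1 := HA_approx A hA Q e hQ he1
        have a2 := HA_le_three A Q e hQ he1
        have a3 := HA_nonneg A (Q / e) (2 * Q / e)
        have a4 : V * Real.log 2 ≤ 1 := by nlinarith
        have a5 : 0 ≤ V * Real.log 2 := by positivity
        have a6 : |HA A (Q / e) (2 * Q / e) - V * Real.log 2| ≤ 3 := by
          rw [abs_le]
          constructor <;> linarith
        set δ := |HA A (Q / e) (2 * Q / e) - V * Real.log 2| with hδ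
        have hδ0 : 0 ≤ δ := abs_nonneg _
        have a7 : δ ≤ √(6 * 2 ^ A.card / (Q : ℝ)) * √(e : ℝ) := by
          rw [← Real.sqrt_mul (by positivity)]
          apply Real.le_sqrt_of_sq_le
          calc δ ^ 2 = δ * δ := sq δ
            _ ≤ (2 * 2 ^ A.card * ((e : ℝ) / Q)) * 3 := mul_le_mul a1 a6 hδ0 (by positivity)
            _ = 6 * 2 ^ A.card / (Q : ℝ) * e := by ring
        have a8 : (e : ℝ) = √(e : ℝ) * √(e : ℝ) := (Real.mul_self_sqrt he0.le).symm
        have hse : 0 < √(e : ℝ) := Real.sqrt_pos.mpr he0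
        calc hh h e / (e : ℝ) * δ ≤ hh h e / (e : ℝ) * (√(6 * 2 ^ A.card / (Q : ℝ)) * √(e : ℝ)) :=
              mul_le_mul_of_nonneg_left a7 (by positivity)
          _ = √(6 * 2 ^ A.card / (Q : ℝ)) * (hh h e / √(e : ℝ)) := by
              have : hh h e / (e : ℝ) = hh h e / (√(e : ℝ) * √(e : ℝ)) := by rw [← a8]
              rw [this]
              field_simp
    _ ≤ _ := by
        rw [← mul_sum, mul_comm]
        exact mul_le_mul_of_nonneg_right (sum_sqrt_le h0 h1 hCh A _) (Real.sqrt_nonneg _)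

theorem TQ_le {h : ℕ → ℝ} {Ch : ℝ} (h0 : ∀ p, p.Prime → 0 ≤ h p)
    (h1 : ∀ p, p.Prime → h p ≤ Ch / p) (hCh : 0 ≤ Ch) (A : Finset ℕ) (hA : ∀ p ∈ A, p.Prime)
    {Q : ℕ} (hQ : 1 ≤ Q) : TQ h A Q ≤ 3 * CR Ch := by
  rw [TQ_eq h A hA]
  calc ∑ e ∈ Sf A (2 * Q), hh h e / (e : ℝ) * HA A (Q / e) (2 * Q / e) ≤
      ∑ e ∈ Sf A (2 * Q), hh h e / (e : ℝ) * 3 := by
        refine sum_le_sum fun e he => ?_
        unfold Sf at he
        rw [mem_filter, mem_Icc] at he
        exact mul_le_mul_of_nonneg_left (HA_le_three A Q e hQ he.1.1)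
          (div_nonneg (hh_nonneg h0 e) (Nat.cast_nonneg _))
    _ = 3 * Sg h A (2 * Q) := by rw [← sum_mul, mul_comm]; rfl
    _ ≤ _ := by
        have := Sg_le h0 h1 hCh A (2 * Q)
        linarith

end Pool.Agent.H537.FG
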