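import Pool.Agent.H537.FG.An

/-! Switching the divisors `n = a + q m`. -/

set_option autoImplicit false
set_option maxHeartbeats 4000000

open Finset

namespace Pool.Agent.H537.FG

open Classical in
/-- the number of the `n ≤ X`, `n ≡ a (mod q)`, with the property `R` -/
noncomputable def cntR (R : ℕ → Prop) (X a q : ℕ) : ℕ := ((Icc 1 X).filter fun n => n ≡ a [MOD q] ∧ R n).card

open Classical in
/-- the indicator function -/
noncomputable def ind (R : ℕ → Prop) (X a q m : ℕ) : ℝ := if a + q * m ≤ X ∧ R (a + q * m) then 1 else 0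

open Classical in
theorem cnt_q {R : ℕ → Prop} {X a Q q : ℕ} (haQ : a ≤ Q) (hRa : ¬ R a) (hQ : 1 ≤ Q) (hq : Q < q) :
    (cntR R X a q : ℝ) = ∑ m ∈ Ioc 0 ((X - a) / Q), ind R X a q m := by
  unfold cntR ind
  rw [sum_ite, sum_const, sum_const_zero, add_zero, nsmul_eq_mul, mul_one]
  congr 1
  symm
  apply Finset.card_bij (fun m _ => a + q * m)
  · intro m hm
    rw [mem_filter, mem_Ioc] at hm
    rw [mem_filter, mem_Icc]
    obtain ⟨⟨h1, _⟩, h2, h3⟩ := hm
    refine ⟨⟨?_, h2⟩, ?_, h3⟩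
    · have : 1 ≤ q * m := Nat.mul_pos (by omega) h1
      omega
    · unfold Nat.ModEq
      simp
  · intro m _ m' _ h
    have h1 : q * m = q * m' := by omega
    exact Nat.eq_of_mul_eq_mul_left (by omega) h1
  · intro n hn
    rw [mem_filter, mem_Icc] at hn
    obtain ⟨⟨h1, h2⟩, h3, h4⟩ := hn
    unfold Nat.ModEq at h3
    rw [Nat.mod_eq_of_lt (show a < q by omega)] at h3
    have h5 : n = a + q * (n / q) := by
      have := Nat.mod_add_div n q
      omega
    have h6 : 0 < n / q := by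
      rcases Nat.eq_zero_or_pos (n / q) with h | h
      · exfalso
        rw [h, mul_zero, add_zero] at h5
        rw [h5] at h4
        exact hRa h4
      · exact h
    refine ⟨n / q, ?_, h5.symm⟩
    rw [mem_filter, mem_Ioc, ← h5]
    refine ⟨⟨h6, ?_⟩, h2, h4⟩
    rw [Nat.le_div_iff_mul_le hQ]
    have h7 : n / q * Q ≤ q * (n / q) := by
      rw [mul_comm]
      exact Nat.mul_le_mul_right _ hq.le
    omega

open Classical in
theorem cnt_m {R : ℕ → Prop} {X a Q m : ℕ} (hm : 1 ≤ m) (hmX : a + m * Q ≤ X) :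
    (cntR R (min (a + 2 * (m * Q)) X) a m : ℝ) - cntR R (a + m * Q) a m =
      ∑ q ∈ Ioc Q (2 * Q), ind R X a q m := by
  have h1 : cntR R (min (a + 2 * (m * Q)) X) a m = cntR R (a + m * Q) a m +
      ((Ioc (a + m * Q) (min (a + 2 * (m * Q)) X)).filter fun n => n ≡ a [MOD m] ∧ R n).card := by
    unfold cntR
    rw [← card_union_of_disjoint]
    · congr 1
      rw [← filter_union]
      congr 1
      ext n
      rw [mem_union, mem_Icc, mem_Icc, mem_Ioc]
      omega
    · rw [disjoint_left]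
      intro n h2 h3
      rw [mem_filter, mem_Icc] at h2
      rw [mem_filter, mem_Ioc] at h3
      omega
  rw [h1]
  push_cast
  rw [add_sub_cancel_left]
  unfold ind
  rw [sum_ite, sum_const, sum_const_zero, add_zero, nsmul_eq_mul, mul_one]
  congr 1
  symm
  apply Finset.card_bij (fun q _ => a + q * m)
  · intro q hq
    rw [mem_filter, mem_Ioc] at hq
    rw [mem_filter, mem_Ioc]
    obtain ⟨⟨h2, h3⟩, h4, h5⟩ := hq
    refine ⟨⟨?_, ?_⟩, ?_, h5⟩
    · have : m * Q < q * m := by
        rw [mul_comm]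
        exact Nat.mul_lt_mul_of_pos_right h2 hm
      omega
    · apply le_min _ h4
      have : q * m ≤ 2 * (m * Q) := by
        calc q * m ≤ (2 * Q) * m := Nat.mul_le_mul_right _ h3
          _ = _ := by ring
      omega
    · unfold Nat.ModEq
      simp
  · intro q _ q' _ h
    have h2 : q * m = q' * m := by omega
    exact Nat.eq_of_mul_eq_mul_right hm h2
  · intro n hn
    rw [mem_filter, mem_Ioc] at hn
    obtain ⟨⟨h2, h3⟩, h4, h5⟩ := hn
    have h6 : a ≤ n := by omega
    have h7 : m ∣ n - a := (Nat.modEq_iff_dvd' h6).mp h4.symm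
    obtain ⟨q, hq⟩ := h7
    have h8 : a + q * m = n := by
      rw [mul_comm q m]
      omega
    refine ⟨q, ?_, h8⟩
    rw [mem_filter, mem_Ioc, h8]
    have h9 := h3.trans (min_le_left _ _)
    have h10 := h3.trans (min_le_right _ _)
    refine ⟨⟨?_, ?_⟩, h10, h5⟩
    · by_contra hc
      push Not at hc
      have : q * m ≤ m * Q := by
        rw [mul_comm m Q]
        exact Nat.mul_le_mul_right _ hc
      omega
    · by_contra hc
      push Not at hc
      have : 2 * (m * Q) < q * m := by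
        calc 2 * (m * Q) = (2 * Q) * m := by ring
          _ < q * m := Nat.mul_lt_mul_of_pos_right hc hm
      omega

theorem cnt_switch {R : ℕ → Prop} {X a Q : ℕ} {A : Finset ℕ} (haQ : a ≤ Q) (hRa : ¬ R a) (hQ : 1 ≤ Q)
    (haX : a ≤ X)
    (hR : ∀ q m : ℕ, Q < q → q ≤ 2 * Q → 1 ≤ m → m ≤ (X - a) / Q → R (a + q * m) → Fr A q ∧ Fr A m) :
    ∑ q ∈ (Ioc Q (2 * Q)).filter (Fr A), (cntR R X a q : ℝ) =
      ∑ m ∈ (Ioc 0 ((X - a) / Q)).filter (Fr A),
        ((cntR R (min (a + 2 * (m * Q)) X) a m : ℝ) - cntR R (a + m * Q) a m) := by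
  classical
  set M := (X - a) / Q with hM
  have h1 : ∑ q ∈ (Ioc Q (2 * Q)).filter (Fr A), (cntR R X a q : ℝ) =
      ∑ q ∈ Ioc Q (2 * Q), ∑ m ∈ Ioc 0 M, ind R X a q m := by
    rw [sum_filter]
    refine sum_congr rfl fun q hq => ?_
    rw [mem_Ioc] at hq
    split_ifs with hf
    · exact cnt_q haQ hRa hQ hq.1
    · symm
      apply sum_eq_zero
      intro m hm
      rw [mem_Ioc] at hm
      unfold ind
      rw [if_neg]
      rintro ⟨_, h3⟩
      exact hf (hR q m hq.1 hq.2 hm.1 hm.2 h3).1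
  have h2 : ∑ m ∈ (Ioc 0 M).filter (Fr A),
        ((cntR R (min (a + 2 * (m * Q)) X) a m : ℝ) - cntR R (a + m * Q) a m) =
      ∑ m ∈ Ioc 0 M, ∑ q ∈ Ioc Q (2 * Q), ind R X a q m := by
    rw [sum_filter]
    refine sum_congr rfl fun m hm => ?_
    rw [mem_Ioc] at hm
    have hmX : a + m * Q ≤ X := by
      have : m * Q ≤ X - a := (Nat.le_div_iff_mul_le hQ).mp hm.2
      omega
    split_ifs with hf
    · exact cnt_m hm.1 hmX
    · symm
      apply sum_eq_zero
      intro q hq
      rw [mem_Ioc] at hq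
      unfold ind
      rw [if_neg]
      rintro ⟨_, h3⟩
      exact hf (hR q m hq.1 hq.2 hm.1 hm.2 h3).2
  rw [h1, h2, sum_comm]

end Pool.Agent.H537.FG
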