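import Pool.Agent.H537.FG.Mult

/-! The deviation of the weighted sums over the free integers. -/

set_option autoImplicit false
set_option maxHeartbeats 4000000

open Finset

namespace Pool.Agent.H537.FG

open Pool.Agent.N914.MR

/-- partial sums of the weights over the free integers -/
noncomputable def GS (h : ℕ → ℝ) (A : Finset ℕ) (Y : ℕ) : ℝ := ∑ m ∈ (Ioc 0 Y).filter (Fr A), gg h m

theorem NA_eq (A : Finset ℕ) (Y : ℕ) : (NA A Y : ℝ) = ∑ _j ∈ (Ioc 0 Y).filter (Fr A), (1 : ℝ) := by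
  rw [sum_const, nsmul_eq_mul, mul_one]
  rfl

theorem NA_le (A : Finset ℕ) (Y : ℕ) : NA A Y ≤ Y := by
  unfold NA
  refine (card_filter_le _ _).trans ?_
  simp

theorem GS_eq (h : ℕ → ℝ) (A : Finset ℕ) (hA : ∀ p ∈ A, p.Prime) {Y N : ℕ} (hYN : Y ≤ N) :
    GS h A Y = ∑ e ∈ Sf A N, hh h e * (NA A (Y / e) : ℝ) := by
  have h1 := swap h A hA (fun _ => 1) 0 Y
  simp only [mul_one, Nat.zero_div] at h1
  unfold GS
  rw [h1]
  have h2 : ∑ e ∈ Sf A Y, hh h e * ∑ _j ∈ (Ioc 0 (Y / e)).filter (Fr A), (1 : ℝ) =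
      ∑ e ∈ Sf A Y, hh h e * (NA A (Y / e) : ℝ) :=
    sum_congr rfl fun e _ => by rw [NA_eq]
  rw [h2]
  apply sum_subset
  · intro e he
    unfold Sf at he ⊢
    rw [mem_filter, mem_Icc] at he ⊢
    exact ⟨⟨he.1.1, he.1.2.trans hYN⟩, he.2⟩
  · intro e he hne
    unfold Sf at he hne
    rw [mem_filter, mem_Icc] at he hne
    have h3 : Y < e := by
      by_contra hc
      push Not at hc
      exact hne ⟨⟨he.1.1, hc⟩, he.2⟩
    rw [Nat.div_eq_of_lt h3, NA_zero]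
    simp

theorem GS_le {h : ℕ → ℝ} {Ch : ℝ} (h0 : ∀ p, p.Prime → 0 ≤ h p)
    (h1 : ∀ p, p.Prime → h p ≤ Ch / p) (hCh : 0 ≤ Ch) (A : Finset ℕ) (hA : ∀ p ∈ A, p.Prime) (Y : ℕ) :
    GS h A Y ≤ CR Ch * Y := by
  rw [GS_eq h A hA le_rfl]
  calc ∑ e ∈ Sf A Y, hh h e * (NA A (Y / e) : ℝ) ≤ ∑ e ∈ Sf A Y, hh h e / (e : ℝ) * Y := by
        refine sum_le_sum fun e he => ?_
        have e1 : (NA A (Y / e) : ℝ) ≤ ((Y / e : ℕ) : ℝ) := by exact_mod_cast NA_le A (Y / e)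
        have e2 : ((Y / e : ℕ) : ℝ) ≤ (Y : ℝ) / e := Nat.cast_div_le
        calc hh h e * (NA A (Y / e) : ℝ) ≤ hh h e * ((Y : ℝ) / e) :=
              mul_le_mul_of_nonneg_left (e1.trans e2) (hh_nonneg h0 e)
          _ = _ := by ring
    _ = Sg h A Y * Y := by rw [← sum_mul]; rfl
    _ ≤ _ := mul_le_mul_of_nonneg_right (Sg_le h0 h1 hCh A Y) (Nat.cast_nonneg _)

/-- deviation of the weighted partial sum -/
theorem dev {h : ℕ → ℝ} {Ch : ℝ} (h0 : ∀ p, p.Prime → 0 ≤ h p)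
    (h1 : ∀ p, p.Prime → h p ≤ Ch / p) (hCh : 0 ≤ Ch) (A : Finset ℕ) (hA : ∀ p ∈ A, p.Prime)
    {s c1 : ℝ} (hs : |s| = 1) (hc1 : 0 ≤ c1) {T0 Y N : ℕ} (hT0 : 1 ≤ T0) (hY1 : 1 ≤ Y) (hYN : Y ≤ N)
    (hd : ∀ e : ℕ, 1 ≤ e → e ≤ T0 → c1 * ((Y / e : ℕ) : ℝ) ≤
      s * ((NA A (Y / e) : ℝ) - ((Y / e : ℕ) : ℝ) * bp rc A)) :
    c1 * Y - CR Ch * √(T0 : ℝ) - Y * (CR Ch / √(T0 : ℝ)) ≤
      s * (GS h A Y - bp rc A * Sg h A N * Y) := by
  classical
  set V := bp rc A with hV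
  have hV0 : 0 ≤ V := bp_nonneg rc rc_le_one A
  have hV1 : V ≤ 1 := bp_le_one rc rc_nonneg rc_le_one A
  have hT0' : (1 : ℝ) ≤ T0 := by exact_mod_cast hT0
  have hsT : 0 < √(T0 : ℝ) := Real.sqrt_pos.mpr (by linarith)
  have hY0 : (0 : ℝ) ≤ Y := Nat.cast_nonneg _
  have e1 : s * (GS h A Y - V * Sg h A N * Y) =
      ∑ e ∈ Sf A N, hh h e * (s * ((NA A (Y / e) : ℝ) - V * ((Y : ℝ) / e))) := by
    rw [GS_eq h A hA hYN]
    unfold Sg
    rw [mul_sum, sum_mul, ← sum_sub_distrib, mul_sum]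
    refine sum_congr rfl fun e _ => ?_
    ring
  rw [e1]
  have e2 : ∀ e ∈ Sf A N, (if e = 1 then c1 * Y else 0) - √(T0 : ℝ) * (hh h e / √(e : ℝ)) -
      (Y / √(T0 : ℝ)) * (hh h e / √(e : ℝ)) ≤
      hh h e * (s * ((NA A (Y / e) : ℝ) - V * ((Y : ℝ) / e))) := by
    intro e he
    unfold Sf at he
    rw [mem_filter, mem_Icc] at he
    obtain ⟨⟨he1, _⟩, _, _⟩ := he
    have he1' : (1 : ℝ) ≤ e := by exact_mod_cast he1
    have hse : 0 < √(e : ℝ) := Real.sqrt_pos.mpr (by linarith)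
    have hh0 := hh_nonneg h0 e
    have p1 : 0 ≤ √(T0 : ℝ) * (hh h e / √(e : ℝ)) := by positivity
    have p2 : 0 ≤ (Y / √(T0 : ℝ)) * (hh h e / √(e : ℝ)) := by positivity
    by_cases hc : e = 1
    · subst hc
      have := hd 1 le_rfl hT0
      rw [Nat.div_one] at this
      rw [if_pos rfl, hh_one, one_mul]
      have e3 : s * ((NA A (Y / 1) : ℝ) - V * ((Y : ℝ) / ((1 : ℕ) : ℝ))) =
          s * ((NA A Y : ℝ) - Y * V) := by
        rw [Nat.div_one, Nat.cast_one, div_one]; ring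
      rw [e3]
      rw [hh_one] at p1 p2
      linarith
    · rw [if_neg hc, zero_sub]
      by_cases heT : e ≤ T0
      · have h3 := hd e he1 heT
        have f1 : ((Y / e : ℕ) : ℝ) ≤ (Y : ℝ) / e := Nat.cast_div_le
        have f2 : (Y : ℝ) / e < ((Y / e : ℕ) : ℝ) + 1 := by
          rw [div_lt_iff₀ (by linarith)]
          have := Nat.lt_mul_div_succ Y he1
          have h5 : (Y : ℝ) < ((e * (Y / e + 1) : ℕ) : ℝ) := by exact_mod_cast this
          push_cast at h5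
          push_cast
          linarith
        have f3 : -1 ≤ s * ((NA A (Y / e) : ℝ) - V * ((Y : ℝ) / e)) := by
          have g1 : s * ((NA A (Y / e) : ℝ) - V * ((Y : ℝ) / e)) =
              s * ((NA A (Y / e) : ℝ) - ((Y / e : ℕ) : ℝ) * V) -
                s * (V * ((Y : ℝ) / e - ((Y / e : ℕ) : ℝ))) := by ring
          have g2 : |s * (V * ((Y : ℝ) / e - ((Y / e : ℕ) : ℝ)))| ≤ 1 := by
            rw [abs_mul, hs, one_mul, abs_mul, abs_of_nonneg hV0, abs_of_nonneg (by linarith)]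
            calc V * ((Y : ℝ) / e - ((Y / e : ℕ) : ℝ)) ≤ 1 * 1 := by
                  apply mul_le_mul hV1 (by linarith) (by linarith) zero_le_one
              _ = 1 := one_mul _
          have g3 := (abs_le.mp g2).2
          have g4 : 0 ≤ c1 * ((Y / e : ℕ) : ℝ) := by positivity
          rw [g1]
          linarith
        have f4 : hh h e ≤ √(T0 : ℝ) * (hh h e / √(e : ℝ)) := by
          have g1 : √(e : ℝ) ≤ √(T0 : ℝ) := Real.sqrt_le_sqrt (by exact_mod_cast heT)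
          rw [mul_div_assoc', le_div_iff₀ hse, mul_comm]
          exact mul_le_mul_of_nonneg_right g1 hh0
        have f5 : -hh h e ≤ hh h e * (s * ((NA A (Y / e) : ℝ) - V * ((Y : ℝ) / e))) := by
          have := mul_le_mul_of_nonneg_left f3 hh0
          linarith
        linarith
      · push Not at heT
        have f1 : (NA A (Y / e) : ℝ) ≤ (Y : ℝ) / e := by
          have e1 : (NA A (Y / e) : ℝ) ≤ ((Y / e : ℕ) : ℝ) := by exact_mod_cast NA_le A (Y / e)
          exact e1.trans Nat.cast_div_le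
        have hYe : 0 ≤ (Y : ℝ) / e := by positivity
        have f2 : V * ((Y : ℝ) / e) ≤ (Y : ℝ) / e := by
          have := mul_le_mul_of_nonneg_right hV1 hYe
          linarith
        have f2' : 0 ≤ V * ((Y : ℝ) / e) := by positivity
        have hN0 : (0 : ℝ) ≤ (NA A (Y / e) : ℝ) := Nat.cast_nonneg _
        have f3 : |s * ((NA A (Y / e) : ℝ) - V * ((Y : ℝ) / e))| ≤ (Y : ℝ) / e := by
          rw [abs_mul, hs, one_mul, abs_le]
          constructor <;> linarith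
        have f4 : (Y : ℝ) / e * hh h e ≤ (Y / √(T0 : ℝ)) * (hh h e / √(e : ℝ)) := by
          have g1 : √(T0 : ℝ) ≤ √(e : ℝ) := Real.sqrt_le_sqrt (by exact_mod_cast heT.le)
          have g2 : √(T0 : ℝ) * √(e : ℝ) ≤ e := by
            calc √(T0 : ℝ) * √(e : ℝ) ≤ √(e : ℝ) * √(e : ℝ) :=
                  mul_le_mul_of_nonneg_right g1 hse.le
              _ = e := Real.mul_self_sqrt (by linarith)
          rw [div_mul_eq_mul_div, div_mul_div_comm]
          exact div_le_div_of_nonneg_left (by positivity) (by positivity) g2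
        have f5 : -((Y : ℝ) / e * hh h e) ≤
            hh h e * (s * ((NA A (Y / e) : ℝ) - V * ((Y : ℝ) / e))) := by
          have := mul_le_mul_of_nonneg_left (abs_le.mp f3).1 hh0
          linarith
        linarith
  have e3 := sum_le_sum e2
  refine le_trans ?_ e3
  rw [sum_sub_distrib, sum_sub_distrib, ← mul_sum, ← mul_sum]
  have h4 := sum_sqrt_le h0 h1 hCh A N
  have h5 : ∑ e ∈ Sf A N, (if e = 1 then c1 * (Y : ℝ) else 0) = c1 * Y := by
    rw [sum_ite_eq' (Sf A N) 1 fun _ => c1 * (Y : ℝ), if_pos]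
    unfold Sf
    rw [mem_filter, mem_Icc]
    refine ⟨⟨le_rfl, by omega⟩, squarefree_one, ?_⟩
    intro p hp hd
    exact (hA p hp).one_lt.ne' (Nat.dvd_one.mp hd)
  rw [h5]
  have h6 : √(T0 : ℝ) * ∑ e ∈ Sf A N, hh h e / √(e : ℝ) ≤ CR Ch * √(T0 : ℝ) := by
    rw [mul_comm]
    exact mul_le_mul_of_nonneg_right h4 hsT.le
  have h7 : (Y / √(T0 : ℝ)) * ∑ e ∈ Sf A N, hh h e / √(e : ℝ) ≤ Y * (CR Ch / √(T0 : ℝ)) := by
    calc (Y / √(T0 : ℝ)) * ∑ e ∈ Sf A N, hh h e / √(e : ℝ) ≤ (Y / √(T0 : ℝ)) * CR Ch :=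
          mul_le_mul_of_nonneg_left h4 (by positivity)
      _ = _ := by ring
  linarith

/-- summation by parts -/
theorem abel {D w : ℕ → ℝ} {M : ℕ} (hM : 1 ≤ M) (hD0 : D 0 = 0) (hw : 0 ≤ w M)
    (hmono : ∀ m, 1 ≤ m → m < M → w (m + 1) ≤ w m)
    (hz : ∀ m, 1 ≤ m → m < M → w (m + 1) = w m ∨ 0 ≤ D m) (hDM : 0 ≤ D M) :
    0 ≤ ∑ m ∈ range M, (D (m + 1) - D m) * w (m + 1) := by
  have key : ∀ k, 1 ≤ k → k ≤ M → D k * w k ≤ ∑ m ∈ range k, (D (m + 1) - D m) * w (m + 1) := by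
    intro k hk
    induction k, hk using Nat.le_induction with
    | base => intro _; simp [hD0]
    | succ k hk ih =>
      intro hkM
      have h1 := ih (by omega)
      rw [sum_range_succ]
      have h2 : 0 ≤ D k * (w k - w (k + 1)) := by
        rcases hz k hk (by omega) with h | h
        · rw [h, sub_self, mul_zero]
        · have := hmono k hk (by omega)
          exact mul_nonneg h (by linarith)
      linarith
  exact (mul_nonneg hDM hw).trans (key M hM le_rfl)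

end Pool.Agent.H537.FG
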