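import Mathlib

/-! Choice of the parameters. -/

set_option autoImplicit false
set_option maxHeartbeats 4000000

open Filter Topology

namespace Pool.Agent.H537.FG

/-- the lower end of the range of the primes -/
noncomputable def wF (B : ℝ) (K : ℕ) (L : ℝ) : ℕ := ⌊(L ^ B + 1) ^ (1 / ((K : ℝ) + 1))⌋₊

/-- the upper end of the range of the primes -/
noncomputable def zF (B : ℝ) (K : ℕ) (L : ℝ) : ℕ := ⌊L ^ (B / (K : ℝ))⌋₊

theorem parL (B : ℝ) (hB : 0 < B) (K : ℕ) (hK : 2 ≤ K) (τ CE S0 : ℝ) (hτ : 0 < τ) (hCE : 0 < CE) :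
    ∀ᶠ L : ℝ in atTop, S0 ≤ wF B K L ∧ S0 ≤ Real.log (wF B K L) ∧
      (1 + 1 / (2 * (K : ℝ))) * Real.log (wF B K L) ≤ Real.log (zF B K L) ∧
      Real.log (zF B K L) ≤ (31 / 20) * Real.log (wF B K L) ∧
      (CE * zF B K L / Real.log (wF B K L) + 1) ^ K ≤ τ * L ^ B ∧
      L ^ B + 1 < ((wF B K L : ℝ) + 1) ^ (K + 1) ∧ (zF B K L : ℝ) ≤ L ^ (B / K) := by
  have hK0 : (0 : ℝ) < K := by
    have : 0 < K := by omega
    exact_mod_cast this
  have hK2 : (2 : ℝ) ≤ K := by exact_mod_cast hK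
  have hK1 : (0 : ℝ) < (K : ℝ) + 1 := by linarith
  set δ : ℝ := min (B / (2 * K * (K + 1))) (B * (11 / 20 * K - 1) / (K * (K + 1))) with hδ
  have hδ0 : 0 < δ := by
    rw [hδ]
    apply lt_min
    · positivity
    · apply div_pos _ (by positivity)
      apply mul_pos hB
      linarith
  -- growth
  have t1 : Tendsto (fun L : ℝ => L ^ (B / ((K : ℝ) + 1))) atTop atTop := tendsto_rpow_atTop (by positivity)
  have t2 : Tendsto (fun L : ℝ => L ^ (B / (K : ℝ))) atTop atTop := tendsto_rpow_atTop (by positivity)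
  have t3 := Real.tendsto_log_atTop
  have t4 : Tendsto (fun L : ℝ => L ^ B) atTop atTop := tendsto_rpow_atTop hB
  set E : ℝ := max (|S0| + 2) (3 * (CE + 1) ^ K / τ + 3) with hE
  have hE2 : 2 ≤ E := by
    have := abs_nonneg S0
    exact le_trans (by linarith) (le_max_left _ _)
  filter_upwards [t1.eventually_ge_atTop (2 * Real.exp E + 2), t2.eventually_ge_atTop 4,
    t3.eventually_ge_atTop (4 / δ), t4.eventually_ge_atTop 1, eventually_ge_atTop (1 : ℝ)] with L e1 e2 e3 e4 e5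
  have hL0 : 0 < L := by linarith
  set ℓ := Real.log L with hℓ
  have hℓ0 : 0 < ℓ := lt_of_lt_of_le (by positivity) e3
  have hlog2 : 0 < Real.log 2 := Real.log_pos (by norm_num)
  have hlog2' : Real.log 2 < 1 := Real.log_two_lt_d9.trans (by norm_num)
  set W : ℝ := (L ^ B + 1) ^ (1 / ((K : ℝ) + 1)) with hW
  set Z : ℝ := L ^ (B / (K : ℝ)) with hZ
  have hW1 : L ^ (B / ((K : ℝ) + 1)) ≤ W := by
    have : L ^ (B / ((K : ℝ) + 1)) = (L ^ B) ^ (1 / ((K : ℝ) + 1)) := by
      rw [← Real.rpow_mul hL0.le]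
      congr 1
      ring
    rw [this, hW]
    apply Real.rpow_le_rpow (by positivity) (by linarith) (by positivity)
  have hW2 : Real.log W ≤ (Real.log 2 + B * ℓ) / (K + 1) := by
    rw [hW, Real.log_rpow (by positivity)]
    have : Real.log (L ^ B + 1) ≤ Real.log 2 + B * ℓ := by
      rw [hℓ, ← Real.log_rpow hL0, ← Real.log_mul (by norm_num) (by positivity)]
      apply Real.log_le_log (by positivity)
      linarith
    rw [one_div_mul_eq_div]
    exact div_le_div_of_nonneg_right this hK1.le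
  have hexp : 0 < Real.exp E := Real.exp_pos _
  have hexp1 : 1 ≤ Real.exp E := Real.one_le_exp (by linarith)
  have hWbig : 2 * Real.exp E + 2 ≤ W := e1.trans hW1
  have hwW : (wF B K L : ℝ) ≤ W := Nat.floor_le (by positivity)
  have hwW' : W < (wF B K L : ℝ) + 1 := Nat.lt_floor_add_one _
  have hwexp : Real.exp E ≤ wF B K L := by linarith
  have hw0 : (0 : ℝ) < wF B K L := by linarith
  have hlw : E ≤ Real.log (wF B K L) := by
    rw [Real.le_log_iff_exp_le hw0]
    exact hwexp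
  have hzZ : (zF B K L : ℝ) ≤ Z := Nat.floor_le (by positivity)
  have hzZ' : Z < (zF B K L : ℝ) + 1 := Nat.lt_floor_add_one _
  have hz0 : (0 : ℝ) < zF B K L := by linarith
  have hS0E : S0 ≤ E := by
    have h1 := le_abs_self S0
    have h2 : |S0| + 2 ≤ E := le_max_left _ _
    linarith
  have hEexp : E ≤ Real.exp E := by
    have := Real.add_one_le_exp E
    linarith
  -- logarithms
  have hw_up : Real.log (wF B K L) ≤ (Real.log 2 + B * ℓ) / (K + 1) :=
    (Real.log_le_log hw0 hwW).trans hW2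
  have hw_lo : B * ℓ / (K + 1) - Real.log 2 ≤ Real.log (wF B K L) := by
    have h1 : L ^ (B / ((K : ℝ) + 1)) / 2 ≤ wF B K L := by linarith
    have h2 := Real.log_le_log (by positivity) h1
    rw [Real.log_div (by positivity) (by norm_num), Real.log_rpow hL0] at h2
    have h3 : B / ((K : ℝ) + 1) * Real.log L = B * ℓ / (K + 1) := by
      rw [hℓ]; ring
    rw [h3] at h2
    exact h2
  have hz_up : Real.log (zF B K L) ≤ B / K * ℓ := by
    have h2 := Real.log_le_log hz0 hzZ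
    rw [hZ, Real.log_rpow hL0] at h2
    exact h2
  have hz_lo : B / K * ℓ - Real.log 2 ≤ Real.log (zF B K L) := by
    have h1 : Z / 2 ≤ zF B K L := by linarith
    have h2 := Real.log_le_log (by positivity) h1
    rw [Real.log_div (by positivity) (by norm_num), hZ, Real.log_rpow hL0] at h2
    exact h2
  have hδℓ : 4 ≤ δ * ℓ := by
    rw [div_le_iff₀ hδ0] at e3
    linarith
  have hδ1 : δ ≤ B / (2 * K * (K + 1)) := min_le_left _ _
  have hδ2 : δ ≤ B * (11 / 20 * K - 1) / (K * (K + 1)) := min_le_right _ _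
  refine ⟨by linarith, by linarith, ?_, ?_, ?_, ?_, hzZ⟩
  · have h1 : (1 + 1 / (2 * (K : ℝ))) * Real.log (wF B K L) ≤
        (1 + 1 / (2 * (K : ℝ))) * ((Real.log 2 + B * ℓ) / (K + 1)) :=
      mul_le_mul_of_nonneg_left hw_up (by positivity)
    have h2 : (1 + 1 / (2 * (K : ℝ))) * ((Real.log 2 + B * ℓ) / (K + 1)) =
        B / K * ℓ - B / (2 * K * (K + 1)) * ℓ + (1 + 1 / (2 * (K : ℝ))) / (K + 1) * Real.log 2 := by
      field_simp
      ring
    have h3 : δ * ℓ ≤ B / (2 * K * (K + 1)) * ℓ := mul_le_mul_of_nonneg_right hδ1 hℓ0.le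
    have h4 : (1 + 1 / (2 * (K : ℝ))) / (K + 1) * Real.log 2 ≤ 2 := by
      have a1 : (1 + 1 / (2 * (K : ℝ))) / (K + 1) ≤ 2 := by
        rw [div_le_iff₀ hK1]
        have : 1 / (2 * (K : ℝ)) ≤ 1 := by
          rw [div_le_one (by positivity)]
          linarith
        linarith
      calc (1 + 1 / (2 * (K : ℝ))) / (K + 1) * Real.log 2 ≤ 2 * 1 :=
            mul_le_mul a1 hlog2'.le hlog2.le (by norm_num)
        _ = 2 := by norm_num
    linarith
  · have h1 : (31 / 20) * (B * ℓ / (K + 1) - Real.log 2) ≤ (31 / 20) * Real.log (wF B K L) :=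
      mul_le_mul_of_nonneg_left hw_lo (by norm_num)
    have h2 : (31 / 20) * (B * ℓ / (K + 1)) =
        B / K * ℓ + B * (11 / 20 * K - 1) / (K * (K + 1)) * ℓ := by
      field_simp
      ring
    have h3 : δ * ℓ ≤ B * (11 / 20 * K - 1) / (K * (K + 1)) * ℓ := mul_le_mul_of_nonneg_right hδ2 hℓ0.le
    linarith
  · have hlw0 : 0 < Real.log (wF B K L) := by linarith
    have h1 : Real.log (wF B K L) ≤ zF B K L := by
      have a1 : Real.log (wF B K L) ≤ Real.log (zF B K L) := by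
        have b1 : Real.log (wF B K L) ≤ (1 + 1 / (2 * (K : ℝ))) * Real.log (wF B K L) := by
          have : 0 ≤ 1 / (2 * (K : ℝ)) * Real.log (wF B K L) := by positivity
          linarith
        have b2 : (1 + 1 / (2 * (K : ℝ))) * ((Real.log 2 + B * ℓ) / (K + 1)) =
            B / K * ℓ - B / (2 * K * (K + 1)) * ℓ + (1 + 1 / (2 * (K : ℝ))) / (K + 1) * Real.log 2 := by
          field_simp
          ring
        have b3 : (1 + 1 / (2 * (K : ℝ))) * Real.log (wF B K L) ≤
            (1 + 1 / (2 * (K : ℝ))) * ((Real.log 2 + B * ℓ) / (K + 1)) :=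
          mul_le_mul_of_nonneg_left hw_up (by positivity)
        have b4 : δ * ℓ ≤ B / (2 * K * (K + 1)) * ℓ := mul_le_mul_of_nonneg_right hδ1 hℓ0.le
        have b5 : (1 + 1 / (2 * (K : ℝ))) / (K + 1) * Real.log 2 ≤ 2 := by
          have a1 : (1 + 1 / (2 * (K : ℝ))) / (K + 1) ≤ 2 := by
            rw [div_le_iff₀ hK1]
            have : 1 / (2 * (K : ℝ)) ≤ 1 := by
              rw [div_le_one (by positivity)]
              linarith
            linarith
          calc (1 + 1 / (2 * (K : ℝ))) / (K + 1) * Real.log 2 ≤ 2 * 1 :=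
                mul_le_mul a1 hlog2'.le hlog2.le (by norm_num)
            _ = 2 := by norm_num
        linarith
      have a2 := Real.log_le_sub_one_of_pos hz0
      linarith
    have h2 : CE * zF B K L / Real.log (wF B K L) + 1 ≤ (CE + 1) * (zF B K L / Real.log (wF B K L)) := by
      have : 1 ≤ (zF B K L : ℝ) / Real.log (wF B K L) := by
        rw [one_le_div hlw0]
        exact h1
      have h3 : CE * zF B K L / Real.log (wF B K L) = CE * (zF B K L / Real.log (wF B K L)) := by ring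
      rw [h3]
      linarith
    have h3 : (CE * zF B K L / Real.log (wF B K L) + 1) ^ K ≤
        ((CE + 1) * (zF B K L / Real.log (wF B K L))) ^ K :=
      pow_le_pow_left₀ (by positivity) h2 K
    have h4 : (zF B K L : ℝ) ^ K ≤ L ^ B := by
      calc (zF B K L : ℝ) ^ K ≤ Z ^ K := pow_le_pow_left₀ hz0.le hzZ K
        _ = L ^ B := by
            rw [hZ, ← Real.rpow_natCast, ← Real.rpow_mul hL0.le]
            congr 1
            field_simp
    have h5 : Real.log (wF B K L) ≤ Real.log (wF B K L) ^ K := by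
      have h1 : (1 : ℝ) ≤ Real.log (wF B K L) := by linarith
      calc Real.log (wF B K L) = Real.log (wF B K L) ^ 1 := (pow_one _).symm
        _ ≤ _ := pow_le_pow_right₀ h1 (by omega)
    have h6 : (CE + 1) ^ K ≤ τ * Real.log (wF B K L) := by
      have g1 : 3 * (CE + 1) ^ K / τ + 3 ≤ E := le_max_right _ _
      have g2 : 3 * (CE + 1) ^ K / τ ≤ Real.log (wF B K L) := by linarith
      rw [div_le_iff₀ hτ] at g2
      have g3 : 0 ≤ (CE + 1) ^ K := by positivity
      linarith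
    refine h3.trans ?_
    rw [mul_pow, div_pow]
    have h7 : (CE + 1) ^ K * ((zF B K L : ℝ) ^ K / Real.log (wF B K L) ^ K) ≤
        (CE + 1) ^ K * (L ^ B / Real.log (wF B K L)) := by
      apply mul_le_mul_of_nonneg_left _ (by positivity)
      exact div_le_div₀ (by positivity) h4 hlw0 h5
    refine h7.trans ?_
    rw [mul_div_assoc', div_le_iff₀ hlw0]
    calc (CE + 1) ^ K * L ^ B ≤ (τ * Real.log (wF B K L)) * L ^ B :=
          mul_le_mul_of_nonneg_right h6 (by positivity)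
      _ = _ := by ring
  · have h1 : W ^ (K + 1) = L ^ B + 1 := by
      rw [hW, ← Real.rpow_natCast, ← Real.rpow_mul (by positivity)]
      push_cast
      rw [one_div_mul_cancel (by positivity), Real.rpow_one]
    rw [← h1]
    exact pow_lt_pow_left₀ hwW' (by positivity) (by omega)

/-- `L ^ b` is smaller than any multiple of `L` -/
theorem small_pow (b : ℝ) (hb : b < 1) (κ : ℝ) (hκ : 0 < κ) : ∀ᶠ L : ℝ in atTop, L ^ b ≤ κ * L := by
  have h1 := tendsto_rpow_neg_atTop (y := 1 - b) (by linarith)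
  filter_upwards [h1.eventually (eventually_le_nhds (b := κ) hκ), eventually_gt_atTop (0 : ℝ)] with L h2 h3
  have h4 : L ^ b = L ^ (-(1 - b)) * L := by
    rw [← Real.rpow_add_one h3.ne']
    congr 1
    ring
  rw [h4]
  exact mul_le_mul_of_nonneg_right h2 h3.le

theorem parX (B : ℝ) (hB : 0 < B) (K : ℕ) (hK : 2 ≤ K) (hBK : B < K) (κ τ CE : ℝ) (hκ : 0 < κ)
    (hτ : 0 < τ) (hCE : 0 < CE) (S0 : ℕ) :
    ∀ᶠ X : ℕ in atTop, 1 ≤ ⌊(X : ℝ) / Real.log X ^ B⌋₊ ∧
      2 * (4 : ℝ) ^ (zF B K (Real.log X)) ≤ (X : ℝ) ^ κ ∧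
      Real.exp (CE * zF B K (Real.log X)) ≤ τ * ⌊(X : ℝ) / Real.log X ^ B⌋₊ ∧
      (X : ℝ) / Real.log X ^ (B + 1) ≤ ⌊(X : ℝ) / Real.log X ^ B⌋₊ ∧
      ∀ a : ℕ, (a : ℝ) ≤ 2 * 4 ^ (zF B K (Real.log X)) →
        a ≤ ⌊(X : ℝ) / Real.log X ^ B⌋₊ ∧ (a : ℝ) ≤ τ * X ∧
        S0 ≤ (X - a) / ⌊(X : ℝ) / Real.log X ^ B⌋₊ ∧
        (((X - a) / ⌊(X : ℝ) / Real.log X ^ B⌋₊ : ℕ) : ℝ) ≤ Real.log X ^ B + 1 ∧
        (X - a) / ⌊(X : ℝ) / Real.log X ^ B⌋₊ ≤ 2 * ⌊(X : ℝ) / Real.log X ^ B⌋₊ ∧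
        (((X - a) / ⌊(X : ℝ) / Real.log X ^ B⌋₊ : ℕ) : ℝ) ≤ Real.log X ^ (B + 1) ∧
        Real.log X ^ B ≤ 3 * (((X - a) / ⌊(X : ℝ) / Real.log X ^ B⌋₊ : ℕ) : ℝ) := by
  have hK0 : (0 : ℝ) < K := by
    have : 0 < K := by omega
    exact_mod_cast this
  have hb : B / K < 1 := by
    rw [div_lt_one hK0]
    exact hBK
  set μ : ℝ := min κ (1 / 4) with hμ
  have hμ0 : 0 < μ := lt_min hκ (by norm_num)
  have hlogX : Tendsto (fun X : ℕ => Real.log (X : ℝ)) atTop atTop :=
    Real.tendsto_log_atTop.comp tendsto_natCast_atTop_atTop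
  have t1 : ∀ᶠ L : ℝ in atTop, L ^ (B / K) ≤ min (μ / 4) (1 / (4 * CE)) * L :=
    small_pow _ hb _ (lt_min (by positivity) (by positivity))
  have t2 : ∀ᶠ L : ℝ in atTop, Real.log L ≤ 1 / (4 * B) * L := by
    have h1 := Real.isLittleO_log_id_atTop.bound (c := 1 / (4 * B)) (by positivity)
    filter_upwards [h1, eventually_ge_atTop (1 : ℝ)] with L h2 h3
    rw [id, Real.norm_of_nonneg (Real.log_nonneg h3), Real.norm_of_nonneg (by linarith)] at h2
    exact h2
  have t3 : Tendsto (fun L : ℝ => L ^ B) atTop atTop := tendsto_rpow_atTop hB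
  have t4 : Tendsto (fun L : ℝ => Real.exp (L / 4)) atTop atTop :=
    Real.tendsto_exp_atTop.comp (tendsto_id.atTop_div_const (by norm_num))
  have key : ∀ᶠ L : ℝ in atTop, L ^ (B / K) ≤ min (μ / 4) (1 / (4 * CE)) * L ∧
      Real.log L ≤ 1 / (4 * B) * L ∧ 3 * (S0 : ℝ) + 12 ≤ L ^ B ∧ 8 / τ + 8 ≤ Real.exp (L / 4) ∧
      2 / μ ≤ L ∧ 2 ≤ L := by
    filter_upwards [t1, t2, t3.eventually_ge_atTop (3 * (S0 : ℝ) + 12),
      t4.eventually_ge_atTop (8 / τ + 8), eventually_ge_atTop (2 / μ), eventually_ge_atTop (2 : ℝ)]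
      with L h1 h2 h3 h4 h5 h6
    exact ⟨h1, h2, h3, h4, h5, h6⟩
  filter_upwards [hlogX.eventually key, eventually_ge_atTop 1] with X hX hX1
  obtain ⟨h1, h2, h3, h4, h5, h6⟩ := hX
  set L := Real.log (X : ℝ) with hL
  have hX0 : (0 : ℝ) < X := by exact_mod_cast hX1
  have hL0 : 0 < L := by linarith
  set x := Real.exp (L / 4) with hx
  have hx8 : 8 ≤ x := by
    have : 0 < 8 / τ := by positivity
    linarith
  have hxτ : 8 / τ ≤ x := by linarith
  have hx0 : 0 < x := by linarith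
  have hX4 : (X : ℝ) = x ^ 4 := by
    rw [hx, ← Real.exp_nat_mul]
    push_cast
    rw [show 4 * (L / 4) = L by ring, hL, Real.exp_log hX0]
  have hLB0 : 0 < L ^ B := Real.rpow_pos_of_pos hL0 _
  have hLB12 : 12 ≤ L ^ B := by
    have : (0 : ℝ) ≤ S0 := Nat.cast_nonneg _
    linarith
  have hLBx : L ^ B ≤ x := by
    rw [hx, ← Real.log_le_iff_le_exp hLB0, Real.log_rpow hL0]
    calc B * Real.log L ≤ B * (1 / (4 * B) * L) := mul_le_mul_of_nonneg_left h2 hB.le
      _ = L / 4 := by field_simp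
  have hz : (zF B K L : ℝ) ≤ L ^ (B / K) := Nat.floor_le (by positivity)
  have hz1 : (zF B K L : ℝ) ≤ μ / 4 * L :=
    hz.trans (h1.trans (mul_le_mul_of_nonneg_right (min_le_left _ _) hL0.le))
  have hz2 : CE * (zF B K L : ℝ) ≤ L / 4 := by
    have e1 : (zF B K L : ℝ) ≤ 1 / (4 * CE) * L :=
      hz.trans (h1.trans (mul_le_mul_of_nonneg_right (min_le_right _ _) hL0.le))
    calc CE * (zF B K L : ℝ) ≤ CE * (1 / (4 * CE) * L) := mul_le_mul_of_nonneg_left e1 hCE.le
      _ = L / 4 := by field_simp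
  have hlog4 : Real.log 4 ≤ 2 := by
    have := Real.log_two_lt_d9
    have h4 : Real.log 4 = 2 * Real.log 2 := by
      rw [show (4 : ℝ) = 2 ^ 2 by norm_num, Real.log_pow]
      push_cast
      ring
    rw [h4]
    linarith
  have h24 : 2 * (4 : ℝ) ^ (zF B K L) ≤ Real.exp (μ * L) := by
    rw [← Real.log_le_iff_le_exp (by positivity), Real.log_mul (by norm_num) (by positivity),
      Real.log_pow]
    have e1 : (zF B K L : ℝ) * Real.log 4 ≤ (μ / 4 * L) * 2 :=
      mul_le_mul hz1 hlog4 (Real.log_nonneg (by norm_num)) (by positivity)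
    have e2 : 2 ≤ μ * L := by
      rw [div_le_iff₀ hμ0] at h5
      linarith
    have e3 : Real.log 2 < 1 := Real.log_two_lt_d9.trans (by norm_num)
    linarith
  have h24κ : 2 * (4 : ℝ) ^ (zF B K L) ≤ (X : ℝ) ^ κ := by
    refine h24.trans ?_
    rw [Real.rpow_def_of_pos hX0, ← hL]
    apply Real.exp_le_exp.mpr
    rw [mul_comm]
    exact mul_le_mul_of_nonneg_left (min_le_left _ _) hL0.le
  have h24x : 2 * (4 : ℝ) ^ (zF B K L) ≤ x := by
    refine h24.trans ?_
    rw [hx]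
    apply Real.exp_le_exp.mpr
    have : μ * L ≤ 1 / 4 * L := mul_le_mul_of_nonneg_right (min_le_right _ _) hL0.le
    linarith
  have hCEx : Real.exp (CE * zF B K L) ≤ x := Real.exp_le_exp.mpr hz2
  set Q := ⌊(X : ℝ) / L ^ B⌋₊ with hQ
  have hQle : (Q : ℝ) ≤ X / L ^ B := Nat.floor_le (by positivity)
  have hQlt : (X : ℝ) / L ^ B < Q + 1 := Nat.lt_floor_add_one _
  have hQx : x ^ 3 - 1 ≤ Q := by
    have e1 : x ^ 3 ≤ (X : ℝ) / L ^ B := by
      rw [le_div_iff₀ hLB0, hX4]
      calc x ^ 3 * L ^ B ≤ x ^ 3 * x := mul_le_mul_of_nonneg_left hLBx (by positivity)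
        _ = x ^ 4 := by ring
    linarith
  have hx3 : 64 * x ≤ x ^ 3 := by
    have : 64 ≤ x ^ 2 := by nlinarith
    calc 64 * x ≤ x ^ 2 * x := mul_le_mul_of_nonneg_right this hx0.le
      _ = x ^ 3 := by ring
  have hQ4 : 4 * x ≤ Q := by linarith
  have hQ0 : (0 : ℝ) < Q := by linarith
  have hQ1 : 1 ≤ Q := by
    have : 0 < Q := by exact_mod_cast hQ0
    omega
  have hτx : 8 ≤ τ * x := by
    rw [div_le_iff₀ hτ] at hxτ
    linarith
  have hQ2x : x ^ 2 ≤ Q := by
    have : 8 * x ^ 2 ≤ x ^ 3 := by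
      calc 8 * x ^ 2 ≤ x * x ^ 2 := mul_le_mul_of_nonneg_right hx8 (by positivity)
        _ = x ^ 3 := by ring
    nlinarith
  refine ⟨hQ1, h24κ, ?_, ?_, ?_⟩
  · refine hCEx.trans ?_
    calc x = 1 * x := (one_mul x).symm
      _ ≤ (τ * x) * x := mul_le_mul_of_nonneg_right (by linarith) hx0.le
      _ = τ * x ^ 2 := by ring
      _ ≤ τ * Q := mul_le_mul_of_nonneg_left hQ2x hτ.le
  · have e1 : (X : ℝ) / L ^ (B + 1) ≤ X / L ^ B / 2 := by
      rw [Real.rpow_add_one hL0.ne', ← div_div]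
      apply div_le_div_of_nonneg_left (by positivity) (by norm_num) h6
    linarith
  · intro a ha
    have hax : (a : ℝ) ≤ x := ha.trans h24x
    have haQ : a ≤ Q := by
      have : (a : ℝ) ≤ Q := by linarith
      exact_mod_cast this
    have hx4 : x ≤ x ^ 4 / 2 := by
      have : 2 ≤ x ^ 3 := by nlinarith
      calc x = x * 2 / 2 := by ring
        _ ≤ x * x ^ 3 / 2 := by
            have := mul_le_mul_of_nonneg_left this hx0.le
            linarith
        _ = x ^ 4 / 2 := by ring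
    have haX : a ≤ X := by
      have : (a : ℝ) ≤ X := by
        rw [hX4]
        linarith
      exact_mod_cast this
    have hXa : ((X - a : ℕ) : ℝ) = X - a := by
      push_cast [haX]
      ring
    set M := (X - a) / Q with hM
    have hM1 : (M : ℝ) ≤ ((X - a : ℕ) : ℝ) / Q := Nat.cast_div_le
    have hM2 : ((X - a : ℕ) : ℝ) / Q < M + 1 := by
      rw [div_lt_iff₀ hQ0]
      have := Nat.lt_mul_div_succ (X - a) hQ1
      have h5 : ((X - a : ℕ) : ℝ) < ((Q * ((X - a) / Q + 1) : ℕ) : ℝ) := by exact_mod_cast this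
      rw [hM]
      push_cast at h5 ⊢
      linarith
    have hMup : (M : ℝ) ≤ L ^ B + 1 := by
      refine hM1.trans ?_
      rw [div_le_iff₀ hQ0, hXa]
      have ha0 : (0 : ℝ) ≤ a := Nat.cast_nonneg _
      have e1 : (X : ℝ) < (Q + 1) * L ^ B := by
        rw [div_lt_iff₀ hLB0] at hQlt
        exact hQlt
      nlinarith
    have hMlo : L ^ B ≤ 3 * (M : ℝ) := by
      have e1 : L ^ B / 2 ≤ ((X - a : ℕ) : ℝ) / Q := by
        rw [le_div_iff₀ hQ0, hXa]
        have e2 : (Q : ℝ) * L ^ B ≤ X := by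
          rw [le_div_iff₀ hLB0] at hQle
          exact hQle
        have e3 : (a : ℝ) ≤ X / 2 := by
          rw [hX4]
          linarith
        linarith
      linarith
    refine ⟨haQ, ?_, ?_, hMup, ?_, ?_, hMlo⟩
    · refine hax.trans ?_
      rw [hX4]
      calc x = 1 * x := (one_mul x).symm
        _ ≤ (τ * x) * x := mul_le_mul_of_nonneg_right (by linarith) hx0.le
        _ = τ * x ^ 2 := by ring
        _ ≤ τ * x ^ 4 := by
            apply mul_le_mul_of_nonneg_left _ hτ.le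
            apply pow_le_pow_right₀ (by linarith) (by norm_num)
    · have : (S0 : ℝ) ≤ M := by linarith
      exact_mod_cast this
    · have : (M : ℝ) ≤ 2 * Q := by linarith
      exact_mod_cast this
    · refine hMup.trans ?_
      rw [Real.rpow_add_one hL0.ne']
      nlinarith

end Pool.Agent.H537.FG
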