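import Pool.Agent.H537.FG.Choice
import Pool.Agent.H537.FG.Par

/-! The final assembly for systems of polynomials, one parity. -/

set_option autoImplicit false
set_option maxHeartbeats 4000000

open Finset Polynomial Filter

namespace Pool.Agent.H537.FG

open Pool.Agent.X50.LG Pool.Agent.N914.MR

/-- the expected number of the `n ≤ y` in a class modulo `q` -/
noncomputable def mainF (F : Finset ℤ[X]) (C : ℝ) (y q : ℕ) : ℝ := C * (gg (hw F) q / q) * dens F y

open Classical in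
theorem parity (F : Finset ℤ[X]) (hFne : F.Nonempty) (hirr : ∀ f ∈ F, Irreducible f ∧ 0 < f.natDegree)
    (hadm : ∀ p : ℕ, p.Prime → om F p < p) (C : ℝ) (hC : 0 < C) (B : ℝ) (hB : 0 < B) (ε : ℝ)
    (hε : 0 < ε) (K : ℕ) (hK2 : 2 ≤ K) (hBK : B < K) :
    ∃ η₀ : ℝ, 0 < η₀ ∧ ∀ η : ℝ, 0 < η → η ≤ η₀ → ∀ᶠ X : ℕ in atTop,
      (∃ q a x : ℕ, 1 ≤ q ∧ (q : ℝ) ≤ Real.log X ^ (B + 1) ∧ (X : ℝ) / Real.log X ^ (B + 1) ≤ x ∧
        x ≤ X ∧ IsCoprime (val F a) (q : ℤ) ∧
        η * mainF F C x q < |(cntR (PrimeAt F) x a q : ℝ) - mainF F C x q|) ∨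
      ∃ a : ℕ, (a : ℝ) ≤ (X : ℝ) ^ ε ∧
        0 < ∑ q ∈ (Ioc ⌊(X : ℝ) / Real.log X ^ B⌋₊ (2 * ⌊(X : ℝ) / Real.log X ^ B⌋₊)).filter
            (fun q : ℕ => IsCoprime (val F a) (q : ℤ)), mainF F C X q ∧
        η * ∑ q ∈ (Ioc ⌊(X : ℝ) / Real.log X ^ B⌋₊ (2 * ⌊(X : ℝ) / Real.log X ^ B⌋₊)).filter
            (fun q : ℕ => IsCoprime (val F a) (q : ℤ)), mainF F C X q ≤
          (-1) ^ K * (∑ q ∈ (Ioc ⌊(X : ℝ) / Real.log X ^ B⌋₊ (2 * ⌊(X : ℝ) / Real.log X ^ B⌋₊)).filter
            (fun q : ℕ => IsCoprime (val F a) (q : ℤ)), (cntR (PrimeAt F) X a q : ℝ) -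
            ∑ q ∈ (Ioc ⌊(X : ℝ) / Real.log X ^ B⌋₊ (2 * ⌊(X : ℝ) / Real.log X ^ B⌋₊)).filter
            (fun q : ℕ => IsCoprime (val F a) (q : ℤ)), mainF F C X q) := by
  obtain ⟨f₁, hf₁⟩ := hFne
  have hdeg : ∀ f ∈ F, 0 < f.natDegree := fun f hf => (hirr f hf).2
  have hprim : ∀ f ∈ F, f.IsPrimitive := fun f hf =>
    (hirr f hf).1.isPrimitive (hirr f hf).2.ne'
  have hirrQ : Irreducible (f₁.map (Int.castRingHom ℚ)) :=
    (IsPrimitive.Int.irreducible_iff_irreducible_map_cast (hprim f₁ hf₁)).mp (hirr f₁ hf₁).1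
  have hD1 : 1 ≤ deg F := by
    unfold deg
    exact (hdeg f₁ hf₁).trans_le (single_le_sum (f := fun f : ℤ[X] => f.natDegree)
      (fun i _ => Nat.zero_le _) hf₁)
  have hK0 : (0 : ℝ) < K := by
    have : 0 < K := by omega
    exact_mod_cast this
  obtain ⟨c0, hc0, w0, hroot⟩ := root_range f₁ hirrQ (θ := 1 / (2 * (K : ℝ))) (by positivity)
  obtain ⟨Cm, hCm, hmert⟩ := Pool.Agent.Helper923.HMertens.mertens_ratio
  obtain ⟨CF, hCF, n₁, hval⟩ := val_size F hdeg
  set D : ℝ := (deg F : ℝ) with hD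
  have hD1' : (1 : ℝ) ≤ D := by
    rw [hD]
    exact_mod_cast hD1
  obtain ⟨η₀, hη₀, τ, hτ, S0, hS0, hasm⟩ := asm (2 * D ^ 2) c0 (by positivity) hc0 K
  set CE : ℝ := 3 * D + CF + 1 with hCE
  have hCE0 : 0 < CE := by positivity
  refine ⟨η₀, hη₀, fun η hη hηle => ?_⟩
  have hlogX : Tendsto (fun X : ℕ => Real.log (X : ℝ)) atTop atTop :=
    Real.tendsto_log_atTop.comp tendsto_natCast_atTop_atTop
  set SS : ℝ := 2 * ((K : ℝ) + 1) / c0 + 20 * (Cm + CE) + w0 + n₁ + 2 / c0 + 2 with hSS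
  have hL1 := hlogX.eventually (parL B hB K hK2 (τ / 3) CE SS (by positivity) hCE0)
  have hX1 := parX B hB K hK2 hBK ε (min τ (1 / 4)) CE hε (lt_min hτ (by norm_num)) hCE0 S0
  have hsl := slow F hdeg (B + 1) η hη
  filter_upwards [hL1, hX1, hsl] with X h1 h2 h3
  by_cases hI : ∃ q a x : ℕ, 1 ≤ q ∧ (q : ℝ) ≤ Real.log X ^ (B + 1) ∧ (X : ℝ) / Real.log X ^ (B + 1) ≤ x ∧
        x ≤ X ∧ IsCoprime (val F a) (q : ℤ) ∧
        η * mainF F C x q < |(cntR (PrimeAt F) x a q : ℝ) - mainF F C x q|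
  · exact Or.inl hI
  right
  push Not at hI
  set L := Real.log (X : ℝ) with hL
  set w := wF B K L with hwd
  set z := zF B K L with hz
  set Q := ⌊(X : ℝ) / L ^ B⌋₊ with hQ
  obtain ⟨g1, g2, g3, g4, g5, g6, g7⟩ := h1
  obtain ⟨k1, k2, k3, k4, k5⟩ := h2
  obtain ⟨hlam, hdens⟩ := h3
  have hp1 : 0 < 2 * ((K : ℝ) + 1) / c0 := by positivity
  have hp2 : 0 ≤ 20 * (Cm + CE) := by positivity
  have hp3 : (0 : ℝ) ≤ w0 := Nat.cast_nonneg _
  have hp4 : (0 : ℝ) ≤ n₁ := Nat.cast_nonneg _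
  have hp5 : 0 < 2 / c0 := by positivity
  have hww0 : w0 ≤ w := by
    have : (w0 : ℝ) ≤ w := by linarith
    exact_mod_cast this
  have hwn1 : n₁ ≤ w := by
    have : (n₁ : ℝ) ≤ w := by linarith
    exact_mod_cast this
  have hw2 : (2 : ℝ) ≤ w := by linarith
  have hw2' : 2 ≤ w := by exact_mod_cast hw2
  have hlw2 : 2 ≤ Real.log w := by linarith
  have hlw0 : 0 < Real.log w := by linarith
  have hlz : Real.log w ≤ Real.log z := by
    have : 0 ≤ 1 / (2 * (K : ℝ)) * Real.log w := by positivity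
    linarith
  have hz0 : (0 : ℝ) < z := by
    by_contra hc
    have h0 : (z : ℝ) = 0 := le_antisymm (not_lt.mp hc) (Nat.cast_nonneg _)
    rw [h0, Real.log_zero] at hlz
    linarith
  have hz1 : 1 ≤ z := by
    have : 0 < z := by exact_mod_cast hz0
    omega
  have hz1' : (1 : ℝ) ≤ z := by exact_mod_cast hz1
  have hwz : w ≤ z := by
    have : (w : ℝ) ≤ z := (Real.log_le_log_iff (by linarith) hz0).mp hlz
    exact_mod_cast this
  have hsum := hroot w z hww0 g3
  have hne : ∃ p ∈ Ioc w z, p.Prime ∧ HasRoot f₁ p := by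
    by_contra hc
    push Not at hc
    rw [filter_false_of_mem fun p hp h => hc p hp h.1 h.2, sum_empty] at hsum
    linarith
  obtain ⟨a, ha1, ha2, ha3, ha4⟩ := choose_a F f₁ hadm w z hne
  obtain ⟨m1, m2, m3, m4, m5, m6, m7⟩ := k5 a ha1
  obtain ⟨v1, v2, v3⟩ := hval a (hwn1.trans ha2)
  set E : ℤ := val F a with hE
  have hE0 : E.natAbs ≠ 0 := Int.natAbs_ne_zero.mpr v2
  set A : Finset ℕ := E.natAbs.primeFactors with hA
  have hAw : ∀ p ∈ A, p.Prime ∧ w < p := by
    intro p hp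
    have hpp := Nat.prime_of_mem_primeFactors hp
    refine ⟨hpp, ?_⟩
    by_contra hc
    push Not at hc
    exact ha3 p hpp hc (Int.natCast_dvd.mpr (Nat.dvd_of_mem_primeFactors hp))
  have ha0 : (0 : ℝ) < a := by
    have : 0 < a := by omega
    exact_mod_cast this
  have hlogE : Real.log (E.natAbs : ℝ) ≤ CE * z := by
    have e1 : Real.log a ≤ 1 + 2 * z := by
      have h5 := Real.log_le_log ha0 ha1
      rw [Real.log_mul (by norm_num) (by positivity), Real.log_pow] at h5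
      have h6 : Real.log 2 < 1 := Real.log_two_lt_d9.trans (by norm_num)
      have h7 : Real.log 4 ≤ 2 := by
        have h4 : Real.log 4 = 2 * Real.log 2 := by
          rw [show (4 : ℝ) = 2 ^ 2 by norm_num, Real.log_pow]
          push_cast
          ring
        rw [h4]
        linarith
      have h8 : (z : ℝ) * Real.log 4 ≤ z * 2 := mul_le_mul_of_nonneg_left h7 hz0.le
      linarith
    have e2 : D * Real.log a ≤ D * (1 + 2 * z) := mul_le_mul_of_nonneg_left e1 (by linarith)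
    have e3 : CF ≤ CF * z := le_mul_of_one_le_right hCF hz1'
    have e4 : D ≤ D * z := le_mul_of_one_le_right (by linarith) hz1'
    rw [hCE]
    linarith
  have hcard1 := card_log_le hE0 (fun p hp => (hAw p hp).2) (by omega : 0 < w)
  rw [← hA] at hcard1
  have hcard : (A.card : ℝ) ≤ CE * z / Real.log w := by
    rw [le_div_iff₀ hlw0]
    exact hcard1.trans hlogE
  have hEexp : (E.natAbs : ℝ) ≤ Real.exp (CE * z) := by
    rw [← Real.log_le_iff_le_exp (by exact_mod_cast Nat.pos_of_ne_zero hE0)]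
    exact hlogE
  have hQ0 : (0 : ℝ) < Q := by exact_mod_cast k1
  have hEQ : (E.natAbs : ℝ) ≤ Q / 4 := by
    refine hEexp.trans (k3.trans ?_)
    calc min τ (1 / 4) * (Q : ℝ) ≤ 1 / 4 * Q := mul_le_mul_of_nonneg_right (min_le_right _ _) hQ0.le
      _ = Q / 4 := by ring
  have hsub : (Ioc w z).filter (fun p => p.Prime ∧ HasRoot f₁ p) ⊆ A := by
    intro p hp
    rw [mem_filter] at hp
    rw [hA, Nat.mem_primeFactors]
    refine ⟨hp.2.1, ?_, hE0⟩
    have h5 := ha4 p hp.1 hp.2.1 hp.2.2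
    have h6 : (p : ℤ) ∣ E := by
      rw [hE]
      unfold val
      exact h5.trans (dvd_prod_of_mem _ hf₁)
    exact Int.natCast_dvd.mp h6
  have hs1 : c0 ≤ ∑ p ∈ A, rc p := by
    refine hsum.trans ?_
    calc ∑ p ∈ (Ioc w z).filter (fun p => p.Prime ∧ HasRoot f₁ p), (1 : ℝ) / p =
        ∑ p ∈ (Ioc w z).filter (fun p => p.Prime ∧ HasRoot f₁ p), rc p :=
          sum_congr rfl fun p hp => (rc_eq (mem_filter.mp hp).2.1.pos).symm
      _ ≤ _ := sum_le_sum_of_subset_of_nonneg hsub fun p _ _ => rc_nonneg p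
  have hs2 : ∑ p ∈ A, rc p ≤ 1 / 2 := by
    refine (recip_le hAw (by omega : 0 < z)).trans ?_
    have e1 := (abs_le.mp (hmert w z hw2' hwz)).2
    have e2 : Real.log (Real.log z / Real.log w) ≤ 9 / 20 := by
      refine le_trans ?_ log_small
      apply Real.log_le_log (by
        have : 0 < Real.log z := by linarith
        positivity)
      rw [div_le_iff₀ hlw0]
      exact g4
    have e3 : (A.card : ℝ) / z ≤ CE / Real.log w := by
      rw [div_le_iff₀ hz0]
      refine hcard.trans (le_of_eq ?_)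
      ring
    have e4 : Cm / Real.log w + CE / Real.log w ≤ 1 / 20 := by
      rw [← add_div, div_le_iff₀ hlw0]
      linarith
    linarith
  have hwK : 2 * ((K : ℝ) + 1) ≤ c0 * w := by
    have e1 : 2 * ((K : ℝ) + 1) / c0 ≤ w := by linarith
    rw [div_le_iff₀ hc0] at e1
    linarith
  have hMw : (X - a) / Q < (w + 1) ^ (K + 1) := by
    have : (((X - a) / Q : ℕ) : ℝ) < ((w : ℝ) + 1) ^ (K + 1) := lt_of_le_of_lt m4 g6
    exact_mod_cast this
  have hcardK : ((A.card : ℝ) + 1) ^ K ≤ τ * (((X - a) / Q : ℕ) : ℝ) := by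
    calc ((A.card : ℝ) + 1) ^ K ≤ (CE * z / Real.log w + 1) ^ K :=
          pow_le_pow_left₀ (by positivity) (by linarith) K
      _ ≤ τ / 3 * L ^ B := g5
      _ ≤ τ / 3 * (3 * (((X - a) / Q : ℕ) : ℝ)) := mul_le_mul_of_nonneg_left m7 (by positivity)
      _ = _ := by ring
  have hcard2 : (2 : ℝ) ^ A.card ≤ τ * Q := by
    have e1 : (2 : ℝ) ^ A.card ≤ Real.exp (CE * z) := by
      have e2 : (2 : ℝ) ^ A.card ≤ E.natAbs := by
        have h5 : 2 ^ A.card ≤ E.natAbs := by
          calc 2 ^ A.card = ∏ _p ∈ A, 2 := by rw [prod_const]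
            _ ≤ ∏ p ∈ A, p := prod_le_prod' fun p hp => (hAw p hp).1.two_le
            _ ≤ E.natAbs := Nat.le_of_dvd (Nat.pos_of_ne_zero hE0) (Nat.prod_primeFactors_dvd _)
        exact_mod_cast h5
      exact e2.trans hEexp
    refine e1.trans (k3.trans ?_)
    exact mul_le_mul_of_nonneg_right (min_le_left _ _) hQ0.le
  have haX : (a : ℝ) ≤ τ * X :=
    m2.trans (mul_le_mul_of_nonneg_right (min_le_left _ _) (Nat.cast_nonneg _))
  have hval' : ∀ n : ℕ, Q < n → PrimeAt F n → ∀ p ∈ A, ¬ (p : ℤ) ∣ val F n := by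
    intro n hn hR p hp hd
    unfold val at hd
    obtain ⟨f, hf, hdf⟩ := ((Nat.prime_iff_prime_int.mp (hAw p hp).1).dvd_finsetProd_iff _).mp hd
    have h5 := hR f hf
    have h6 : p ∣ (f.eval (n : ℤ)).natAbs := Int.natCast_dvd.mp hdf
    have h7 := (Nat.prime_dvd_prime_iff_eq (hAw p hp).1 h5).mp h6
    have haQ' : a ≤ Q := m1
    have h8 := (hval n (by omega)).1 f hf
    rw [← h7] at h8
    have h9 : (p : ℝ) ≤ E.natAbs := by
      exact_mod_cast Nat.le_of_dvd (Nat.pos_of_ne_zero hE0) (Nat.dvd_of_mem_primeFactors hp)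
    have h10 : (n : ℝ) ≤ 2 * p := by exact_mod_cast h8
    have h11 : (Q : ℝ) < n := by exact_mod_cast hn
    linarith
  have hnR : ¬ PrimeAt F a := by
    intro hR
    have h5 := hR f₁ hf₁
    -- two primes
    have h6 : 1 < ((Ioc w z).filter (fun p => p.Prime ∧ HasRoot f₁ p)).card := by
      by_contra hc
      push Not at hc
      have h7 : ∑ p ∈ (Ioc w z).filter (fun p => p.Prime ∧ HasRoot f₁ p), (1 : ℝ) / p ≤
          ∑ p ∈ (Ioc w z).filter (fun p => p.Prime ∧ HasRoot f₁ p), (1 : ℝ) / w := by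
        refine sum_le_sum fun p hp => ?_
        rw [mem_filter, mem_Ioc] at hp
        apply one_div_le_one_div_of_le (by linarith)
        exact_mod_cast hp.1.1.le
      rw [sum_const, nsmul_eq_mul] at h7
      have h8 : (((Ioc w z).filter (fun p => p.Prime ∧ HasRoot f₁ p)).card : ℝ) ≤ 1 := by
        exact_mod_cast hc
      have h9 : (0 : ℝ) < 1 / w := by positivity
      have h10 : c0 ≤ 1 / (w : ℝ) := by nlinarith
      rw [le_div_iff₀ (by linarith)] at h10
      have h11 : 2 / c0 ≤ w := by linarith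
      rw [div_le_iff₀ hc0] at h11
      linarith
    obtain ⟨p, hp, q, hq, hpq⟩ := one_lt_card.mp h6
    rw [mem_filter] at hp hq
    have e1 := Int.natCast_dvd.mp (ha4 p hp.1 hp.2.1 hp.2.2)
    have e2 := Int.natCast_dvd.mp (ha4 q hq.1 hq.2.1 hq.2.2)
    have e3 := (Nat.prime_dvd_prime_iff_eq hp.2.1 h5).mp e1
    have e4 := (Nat.prime_dvd_prime_iff_eq hq.2.1 h5).mp e2
    exact hpq (e3.trans e4.symm)
  have hcongr : ∀ n m : ℕ, n ≡ a [MOD m] → ∀ p ∈ A, p ∣ m → (p : ℤ) ∣ val F n := by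
    intro n m hnm p hp hpm
    have h5 : n ≡ a [MOD p] := hnm.of_dvd hpm
    rw [val_eq]
    apply eval_congr _ h5
    rw [← val_eq, ← hE]
    exact Int.natCast_dvd.mpr (Nat.dvd_of_mem_primeFactors hp)
  have hfin := hasm η hη hηle (hw F) A w X Q a (PrimeAt F) (dens F)
    (∏ f ∈ F, Real.log ((f.eval (X : ℤ)).natAbs : ℝ))⁻¹ C
    (fun p hp => hw_nonneg (hadm p hp)) (fun p hp => by
      rw [hD]
      exact hw_le hD1 (hadm p hp) (om_le hprim hp)) hAw hs1 hs2 hwK k1 m3 hMw m5 hcardK hcard2 hlam hC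
    (fun y hy1 hy2 => hdens y (k4.trans (by exact_mod_cast hy1)) hy2) m1 haX hnR
    (by
      intro q m hq1 hq2 hm1 hm2 hR
      have hbig : Q < a + q * m := by
        have : q ≤ q * m := Nat.le_mul_of_pos_right q hm1
        omega
      constructor
      · intro p hp hpq
        refine hval' _ hbig hR p hp (hcongr _ q ?_ p hp hpq)
        unfold Nat.ModEq
        simp
      · intro p hp hpm
        refine hval' _ hbig hR p hp (hcongr _ m ?_ p hp hpm)
        unfold Nat.ModEq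
        simp)
    (by
      intro m y hm1 hmM hmF hy1 hy2
      have h5 := hI m a y hm1 (le_trans (by exact_mod_cast hmM) m6)
        (k4.trans (by exact_mod_cast hy1)) hy2 ((fr_iff v2 m).mpr hmF)
      exact h5)
  refine ⟨a, ha1.trans k2, ?_, ?_⟩
  · obtain ⟨j, hj1, hj2⟩ : ∃ j : ℕ, Q < 2 ^ j ∧ 2 ^ j ≤ 2 * Q := by
      refine ⟨Nat.log 2 Q + 1, Nat.lt_pow_succ_log_self (by norm_num) Q, ?_⟩
      rw [pow_succ]
      have := Nat.pow_log_le_self 2 (by omega : Q ≠ 0)
      omega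
    have hcop : IsCoprime (val F a) ((2 ^ j : ℕ) : ℤ) := by
      push_cast
      apply IsCoprime.pow_right
      rw [isCoprime_comm]
      exact (Prime.coprime_iff_not_dvd Int.prime_two).mpr (ha3 2 Nat.prime_two hw2')
    refine sum_pos (fun q hq => ?_) ⟨2 ^ j, mem_filter.mpr ⟨mem_Ioc.mpr ⟨hj1, hj2⟩, hcop⟩⟩
    rw [mem_filter, mem_Ioc] at hq
    have hq0 : (0 : ℝ) < q := by
      have : 0 < q := by omega
      exact_mod_cast this
    have hX0 : (0 : ℝ) < X := by
      have h5 : Q ≤ X := by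
        have : (Q : ℝ) ≤ X := by
          have h6 : (1 : ℝ) ≤ (((X - a) / Q : ℕ) : ℝ) ∨ (((X - a) / Q : ℕ) : ℝ) < 1 := le_or_gt _ _
          rcases h6 with h6 | h6
          · have h7 : 1 ≤ (X - a) / Q := by exact_mod_cast h6
            have h8 : Q ≤ X - a := by
              by_contra hc
              push Not at hc
              rw [Nat.div_eq_of_lt hc] at h7
              omega
            have h9 : Q ≤ X := h8.trans (Nat.sub_le _ _)
            exact_mod_cast h9
          · have h7 : (((X - a) / Q : ℕ) : ℝ) = 0 := by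
              have : (X - a) / Q < 1 := by exact_mod_cast h6
              have h8 : (X - a) / Q = 0 := by omega
              rw [h8]
              simp
            rw [h7, mul_zero] at hcardK
            have : (0 : ℝ) < ((A.card : ℝ) + 1) ^ K := by positivity
            linarith
        exact_mod_cast this
      have : 0 < X := by omega
      exact_mod_cast this
    have hgg : 0 < gg (hw F) q := prod_pos fun p hp => by
      have := hw_nonneg (hadm p (Nat.prime_of_mem_primeFactors hp))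
      linarith
    have hdX : 0 < dens F X := by
      unfold dens
      rw [div_eq_mul_inv]
      exact mul_pos hX0 hlam
    unfold mainF
    positivity
  have hfil : (Ioc Q (2 * Q)).filter (fun q : ℕ => IsCoprime (val F a) (q : ℤ)) =
      (Ioc Q (2 * Q)).filter (Fr A) := by
    apply filter_congr
    intro q _
    exact fr_iff v2 q
  rw [hfil]
  exact hfin

end Pool.Agent.H537.FG
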