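import Pool.Graph.R_pool_sql_team_seeded_63374d34.N914.MR.Sieve

/-! Harmonic sums over integers without prime factors in a finite set. -/

set_option autoImplicit false
set_option maxHeartbeats 4000000

open Finset

namespace Pool.Agent.H537.FG

open Pool.Agent.N914.MR

/-- no element of `A` divides `m` -/
def Fr (A : Finset ℕ) (m : ℕ) : Prop := ∀ p ∈ A, ¬ p ∣ m

instance (A : Finset ℕ) : DecidablePred (Fr A) := fun m => by unfold Fr; infer_instance

theorem Fr_insert {A : Finset ℕ} {q n : ℕ} : Fr (insert q A) n ↔ ¬ q ∣ n ∧ Fr A n := by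
  unfold Fr
  rw [forall_mem_insert]

theorem harm_le {u v : ℕ} (hu : 1 ≤ u) (huv : u ≤ v) :
    ∑ n ∈ Ioc u v, (1 : ℝ) / n ≤ Real.log v - Real.log u := by
  induction v, huv using Nat.le_induction with
  | base => simp
  | succ v hv ih =>
    rw [← Finset.insert_Ioc_right_eq_Ioc_add_one hv, sum_insert (by simp)]
    have hv0 : (0 : ℝ) < v := by
      have : 0 < v := by omega
      exact_mod_cast this
    have h1 : (1 : ℝ) / ((v + 1 : ℕ) : ℝ) ≤ Real.log ((v + 1 : ℕ) : ℝ) - Real.log v := by
      rw [← Real.log_div (by positivity) (by positivity)]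
      have h2 := Real.one_sub_inv_le_log_of_pos (x := ((v + 1 : ℕ) : ℝ) / v) (by positivity)
      refine le_trans (le_of_eq ?_) h2
      push_cast
      field_simp
      ring
    linarith

theorem harm_ge {u v : ℕ} (huv : u ≤ v) :
    Real.log ((v : ℝ) + 1) - Real.log ((u : ℝ) + 1) ≤ ∑ n ∈ Ioc u v, (1 : ℝ) / n := by
  induction v, huv using Nat.le_induction with
  | base => simp
  | succ v hv ih =>
    rw [← Finset.insert_Ioc_right_eq_Ioc_add_one hv, sum_insert (by simp)]
    have h1 : Real.log (((v + 1 : ℕ) : ℝ) + 1) - Real.log ((v : ℝ) + 1) ≤ (1 : ℝ) / ((v + 1 : ℕ) : ℝ) := by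
      rw [← Real.log_div (by positivity) (by positivity)]
      have h2 := Real.log_le_sub_one_of_pos (x := (((v + 1 : ℕ) : ℝ) + 1) / ((v : ℝ) + 1)) (by positivity)
      refine h2.trans (le_of_eq ?_)
      push_cast
      field_simp
      ring
    linarith

/-- harmonic sum over the free integers of `(u, v]` -/
noncomputable def HA (A : Finset ℕ) (u v : ℕ) : ℝ := ∑ n ∈ (Ioc u v).filter (Fr A), (1 : ℝ) / n

theorem HA_nonneg (A : Finset ℕ) (u v : ℕ) : 0 ≤ HA A u v := sum_nonneg fun _ _ => by positivity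

theorem HA_empty (u v : ℕ) : HA ∅ u v = ∑ n ∈ Ioc u v, (1 : ℝ) / n := by
  unfold HA
  rw [filter_true_of_mem fun n _ p hp => by simp at hp]

theorem HA_le_empty (A : Finset ℕ) (u v : ℕ) : HA A u v ≤ HA ∅ u v := by
  rw [HA_empty]
  exact sum_le_sum_of_subset_of_nonneg (filter_subset _ _) fun _ _ _ => by positivity

theorem HA_insert {A : Finset ℕ} {q : ℕ} (hq : q ∉ A) (hA : ∀ p ∈ A, p.Prime) (hqp : q.Prime)
    (u v : ℕ) : HA (insert q A) u v = HA A u v - (1 / (q : ℝ)) * HA A (u / q) (v / q) := by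
  classical
  unfold HA
  have h1 : (1 / (q : ℝ)) * ∑ n ∈ (Ioc (u / q) (v / q)).filter (Fr A), (1 : ℝ) / n =
      ∑ n ∈ (Ioc u v).filter (fun n => Fr A n ∧ q ∣ n), (1 : ℝ) / n := by
    rw [mul_sum]
    apply Finset.sum_bij (fun n _ => q * n)
    · intro n hn
      rw [mem_filter, mem_Ioc] at hn ⊢
      obtain ⟨⟨h1, h2⟩, h3⟩ := hn
      refine ⟨⟨?_, ?_⟩, ?_, dvd_mul_right _ _⟩
      · rw [mul_comm]
        exact (Nat.div_lt_iff_lt_mul hqp.pos).mp h1
      · rw [mul_comm]
        exact (Nat.le_div_iff_mul_le hqp.pos).mp h2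
      · intro p hp hpd
        rcases (hA p hp).dvd_mul.1 hpd with h4 | h4
        · have := (Nat.prime_dvd_prime_iff_eq (hA p hp) hqp).1 h4
          exact hq (this ▸ hp)
        · exact h3 p hp h4
    · intro a _ b _ hab
      exact Nat.eq_of_mul_eq_mul_left hqp.pos hab
    · intro n hn
      rw [mem_filter, mem_Ioc] at hn
      obtain ⟨⟨h1, h2⟩, h3, c, rfl⟩ := hn
      refine ⟨c, ?_, rfl⟩
      rw [mem_filter, mem_Ioc]
      refine ⟨⟨?_, ?_⟩, fun p hp hd => h3 p hp (hd.mul_left _)⟩
      · rw [Nat.div_lt_iff_lt_mul hqp.pos, mul_comm]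
        exact h1
      · rw [Nat.le_div_iff_mul_le hqp.pos, mul_comm]
        exact h2
    · intro n _
      push_cast
      rw [one_div_mul_one_div]
  rw [h1, eq_sub_iff_add_eq, ← sum_union]
  · apply sum_congr _ fun _ _ => rfl
    ext n
    simp only [mem_union, mem_filter, Fr_insert]
    constructor
    · rintro (⟨h1, h2, h3⟩ | ⟨h1, h2, h3⟩)
      · exact ⟨h1, h3⟩
      · exact ⟨h1, h2⟩
    · rintro ⟨h1, h2⟩
      by_cases h3 : q ∣ n
      · exact Or.inr ⟨h1, h2, h3⟩
      · exact Or.inl ⟨h1, h3, h2⟩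
  · rw [disjoint_left]
    intro n h1 h2
    rw [mem_filter] at h1 h2
    exact h1.2 q (mem_insert_self _ _) h2.2.2

/-- the harmonic sum over a dyadic interval -/
theorem base_bound (N k : ℕ) (hN : 1 ≤ N) (hk : 1 ≤ k) :
    |(∑ n ∈ Ioc (N / k) (2 * N / k), (1 : ℝ) / n) - Real.log 2| ≤ 2 * ((k : ℝ) / N) := by
  have hN0 : (0 : ℝ) < N := by exact_mod_cast hN
  have hk0 : (0 : ℝ) < k := by exact_mod_cast hk
  have hlog2 : 0 < Real.log 2 := Real.log_pos (by norm_num)
  have hlog2' : Real.log 2 < 1 := Real.log_two_lt_d9.trans (by norm_num)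
  set u := N / k with hu
  set v := 2 * N / k with hv
  have huv : u ≤ v := Nat.div_le_div_right (by omega)
  have hS0 : 0 ≤ ∑ n ∈ Ioc u v, (1 : ℝ) / n := sum_nonneg fun _ _ => by positivity
  rcases Nat.eq_zero_or_pos u with h0 | h0
  · -- small
    have hlt : N < k := by
      rw [hu] at h0
      exact (Nat.div_eq_zero_iff_lt hk).mp h0
    have hv1 : v ≤ 1 := by
      rw [hv]
      have : 2 * N / k < 2 := by
        rw [Nat.div_lt_iff_lt_mul hk]
        omega
      omega
    have h1 : ∑ n ∈ Ioc u v, (1 : ℝ) / n ≤ 1 := by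
      calc ∑ n ∈ Ioc u v, (1 : ℝ) / n ≤ ∑ n ∈ Ioc (0 : ℕ) 1, (1 : ℝ) / n := by
            apply sum_le_sum_of_subset_of_nonneg
            · rw [h0]
              exact Ioc_subset_Ioc_right hv1
            · intro _ _ _
              positivity
        _ = 1 := by
            rw [show Ioc (0 : ℕ) 1 = {1} from rfl]
            simp
    have h2 : (1 : ℝ) ≤ (k : ℝ) / N := by
      rw [one_le_div hN0]
      exact_mod_cast hlt.le
    rw [abs_le]
    constructor <;> linarith
  · have hu1 : (1 : ℝ) ≤ u := by exact_mod_cast h0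
    have hv0 : (0 : ℝ) < v := by
      have : 0 < v := by omega
      exact_mod_cast this
    set t : ℝ := (N : ℝ) / k with ht
    have ht0 : 0 < t := by positivity
    have e1 : (u : ℝ) ≤ t := Nat.cast_div_le
    have e2 : t < (u : ℝ) + 1 := by
      rw [ht, div_lt_iff₀ hk0]
      have := Nat.lt_mul_div_succ N hk
      have h5 : (N : ℝ) < ((k * (N / k + 1) : ℕ) : ℝ) := by exact_mod_cast this
      push_cast at h5
      rw [hu]
      push_cast
      linarith
    have e3 : (v : ℝ) ≤ 2 * t := by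
      have : ((2 * N / k : ℕ) : ℝ) ≤ ((2 * N : ℕ) : ℝ) / k := Nat.cast_div_le
      rw [hv, ht]
      push_cast at this ⊢
      rw [mul_div_assoc] at this
      exact this
    have e4 : 2 * t < (v : ℝ) + 1 := by
      rw [ht, ← mul_div_assoc, div_lt_iff₀ hk0]
      have := Nat.lt_mul_div_succ (2 * N) hk
      have h5 : ((2 * N : ℕ) : ℝ) < ((k * (2 * N / k + 1) : ℕ) : ℝ) := by exact_mod_cast this
      push_cast at h5
      rw [hv]
      push_cast
      linarith
    have hkN : (k : ℝ) / N = 1 / t := by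
      rw [ht, one_div_div]
    rw [hkN]
    have h1 := harm_le h0 huv
    have h2 := harm_ge huv
    have h3 : Real.log v - Real.log u ≤ Real.log 2 + 2 * (1 / t) := by
      have a1 : Real.log v ≤ Real.log 2 + Real.log t := by
        rw [← Real.log_mul (by norm_num) ht0.ne']
        exact Real.log_le_log hv0 e3
      have a2 : Real.log t - Real.log u ≤ t / u - 1 := by
        rw [← Real.log_div ht0.ne' (by linarith)]
        exact Real.log_le_sub_one_of_pos (by positivity)
      have a3 : t / u - 1 ≤ 2 * (1 / t) := by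
        have hu0 : (0 : ℝ) < u := by linarith
        have : t / u - 1 = (t - u) / u := by field_simp
        rw [this, mul_one_div, div_le_div_iff₀ hu0 ht0]
        nlinarith
      linarith
    have h4 : Real.log 2 - 1 / t ≤ Real.log ((v : ℝ) + 1) - Real.log ((u : ℝ) + 1) := by
      have a1 : Real.log 2 + Real.log t ≤ Real.log ((v : ℝ) + 1) := by
        rw [← Real.log_mul (by norm_num) ht0.ne']
        exact Real.log_le_log (by positivity) e4.le
      have a2 : Real.log ((u : ℝ) + 1) - Real.log t ≤ ((u : ℝ) + 1) / t - 1 := by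
        rw [← Real.log_div (by positivity) ht0.ne']
        exact Real.log_le_sub_one_of_pos (by positivity)
      have a3 : ((u : ℝ) + 1) / t - 1 ≤ 1 / t := by
        have : ((u : ℝ) + 1) / t - 1 = ((u : ℝ) + 1 - t) / t := by field_simp
        rw [this, div_le_div_iff_of_pos_right ht0]
        linarith
      linarith
    have h5 : 0 < 1 / t := by positivity
    rw [abs_le]
    constructor <;> linarith

theorem HA_approx (A : Finset ℕ) (hA : ∀ p ∈ A, p.Prime) :
    ∀ N k : ℕ, 1 ≤ N → 1 ≤ k →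
      |HA A (N / k) (2 * N / k) - bp rc A * Real.log 2| ≤ 2 * 2 ^ A.card * ((k : ℝ) / N) := by
  induction A using Finset.induction_on with
  | empty =>
    intro N k hN hk
    rw [HA_empty]
    simpa [bp] using base_bound N k hN hk
  | insert q A hq ih =>
    intro N k hN hk
    have hqp := hA q (mem_insert_self _ _)
    have hA' : ∀ p ∈ A, p.Prime := fun p hp => hA p (mem_insert_of_mem hp)
    have h1 := ih hA' N k hN hk
    have h2 := ih hA' N (k * q) hN (Nat.mul_pos hk hqp.pos)
    rw [HA_insert hq hA' hqp, Nat.div_div_eq_div_mul, Nat.div_div_eq_div_mul, bp_insert rc hq,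
      card_insert_of_notMem hq, rc_eq hqp.pos]
    have hq0 : (0 : ℝ) < q := by exact_mod_cast hqp.pos
    have key : HA A (N / k) (2 * N / k) - 1 / (q : ℝ) * HA A (N / (k * q)) (2 * N / (k * q)) -
        (1 - 1 / (q : ℝ)) * bp rc A * Real.log 2 =
        (HA A (N / k) (2 * N / k) - bp rc A * Real.log 2) -
        (1 / (q : ℝ)) * (HA A (N / (k * q)) (2 * N / (k * q)) - bp rc A * Real.log 2) := by ring
    rw [key]
    refine (abs_sub _ _).trans ?_
    rw [abs_mul, abs_of_nonneg (by positivity : (0 : ℝ) ≤ 1 / q)]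
    have h3 : 1 / (q : ℝ) * |HA A (N / (k * q)) (2 * N / (k * q)) - bp rc A * Real.log 2| ≤
        1 / (q : ℝ) * (2 * 2 ^ A.card * (((k * q : ℕ) : ℝ) / N)) :=
      mul_le_mul_of_nonneg_left h2 (by positivity)
    have h4 : 1 / (q : ℝ) * (2 * 2 ^ A.card * (((k * q : ℕ) : ℝ) / N)) =
        2 * 2 ^ A.card * ((k : ℝ) / N) := by
      push_cast
      field_simp
    have h5 : (2 : ℝ) * 2 ^ (A.card + 1) * ((k : ℝ) / N) =
        2 * 2 ^ A.card * ((k : ℝ) / N) + 2 * 2 ^ A.card * ((k : ℝ) / N) := by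
      rw [pow_succ]; ring
    rw [h5]
    linarith

theorem HA_le_three (A : Finset ℕ) (N k : ℕ) (hN : 1 ≤ N) (hk : 1 ≤ k) :
    HA A (N / k) (2 * N / k) ≤ 3 := by
  refine (HA_le_empty _ _ _).trans ?_
  rw [HA_empty]
  have hlog2' : Real.log 2 < 1 := Real.log_two_lt_d9.trans (by norm_num)
  have h1 := base_bound N k hN hk
  rw [abs_le] at h1
  have hN0 : (0 : ℝ) < N := by exact_mod_cast hN
  by_cases h : k ≤ N
  · have h2 : (k : ℝ) / N ≤ 1 := by
      rw [div_le_one hN0]
      exact_mod_cast h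
    linarith [h1.2]
  · push Not at h
    have hu : N / k = 0 := Nat.div_eq_of_lt h
    have hv1 : 2 * N / k ≤ 1 := by
      have : 2 * N / k < 2 := by
        rw [Nat.div_lt_iff_lt_mul hk]
        omega
      omega
    calc ∑ n ∈ Ioc (N / k) (2 * N / k), (1 : ℝ) / n ≤ ∑ n ∈ Ioc (0 : ℕ) 1, (1 : ℝ) / n := by
            apply sum_le_sum_of_subset_of_nonneg
            · rw [hu]
              exact Ioc_subset_Ioc_right hv1
            · intro _ _ _
              positivity
      _ ≤ 3 := by
            rw [show Ioc (0 : ℕ) 1 = {1} from rfl]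
            norm_num

end Pool.Agent.H537.FG
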