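import Pool.Agent.H537.FG.An

/-! The comparison theorem: the sum over the small factor deviates from the sum over the large one. -/

set_option autoImplicit false
set_option maxHeartbeats 4000000

open Finset

namespace Pool.Agent.H537.FG

open Pool.Agent.N914.MR

theorem GS_succ (h : ℕ → ℝ) (A : Finset ℕ) (m : ℕ) :
    GS h A (m + 1) - GS h A m = if Fr A (m + 1) then gg h (m + 1) else 0 := by
  unfold GS
  rw [sum_filter, sum_filter, ← Finset.insert_Ioc_right_eq_Ioc_add_one (Nat.zero_le m),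
    sum_insert (by simp)]
  ring

theorem an (Ch c0 : ℝ) (hCh : 0 ≤ Ch) (hc0 : 0 < c0) (K : ℕ) :
    ∃ c2 : ℝ, 0 < c2 ∧ ∃ τ : ℝ, 0 < τ ∧ ∃ S0 : ℕ, 2 ≤ S0 ∧
      ∀ (h : ℕ → ℝ) (A : Finset ℕ) (w X Q : ℕ), (∀ p, p.Prime → 0 ≤ h p) →
        (∀ p, p.Prime → h p ≤ Ch / p) → (∀ p ∈ A, p.Prime ∧ w < p) → c0 ≤ ∑ p ∈ A, rc p →
        ∑ p ∈ A, rc p ≤ 1 / 2 → 2 * ((K : ℝ) + 1) ≤ c0 * w → 1 ≤ Q → S0 ≤ X / Q →
        X / Q < (w + 1) ^ (K + 1) → X / Q ≤ 2 * Q →
        ((A.card : ℝ) + 1) ^ K ≤ τ * ((X / Q : ℕ) : ℝ) → (2 : ℝ) ^ A.card ≤ τ * Q →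
        c2 * X ≤ (-1) ^ K * (WM h A Q X - X * TQ h A Q) := by
  set c1 : ℝ := (1 / 2) * ((1 / 2) * ((c0 / 2) ^ (K + 1) / ((K + 1).factorial : ℝ))) with hc1
  have hfac : (0 : ℝ) < ((K + 1).factorial : ℝ) := by exact_mod_cast Nat.factorial_pos _
  have hc1p : 0 < c1 := by rw [hc1]; positivity
  set R := CR Ch with hR
  have hR0 : 0 < R := CR_pos Ch
  obtain ⟨T0, hT0⟩ := exists_nat_gt ((4 * R / c1) ^ 2)
  have hT0p : (0 : ℝ) < T0 := lt_of_le_of_lt (by positivity) hT0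
  have hT01 : 1 ≤ T0 := by
    have : 0 < T0 := by exact_mod_cast hT0p
    omega
  set rT := √(T0 : ℝ) with hrT
  have hrTp : 0 < rT := Real.sqrt_pos.mpr hT0p
  have hrT4 : 4 * R / c1 ≤ rT := by
    rw [hrT]
    exact Real.le_sqrt_of_sq_le hT0.le
  have hRT : R / rT ≤ c1 / 4 := by
    rw [div_le_iff₀ hrTp]
    rw [div_le_iff₀ hc1p] at hrT4
    linarith
  obtain ⟨S1, hS1⟩ := exists_nat_gt (16 * R * rT / c1)
  obtain ⟨S2, hS2⟩ := exists_nat_gt (80 * (c1 / 2 + R) / c1)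
  set τ : ℝ := min (c1 / (16 * T0)) ((c1 / (16 * R)) ^ 2 / 6) with hτ
  have hτ0 : 0 < τ := by
    rw [hτ]
    apply lt_min <;> positivity
  refine ⟨c1 / 8, by positivity, τ, hτ0, S1 + S2 + 8 * T0 + 2, by omega, ?_⟩
  intro h A w X Q h0 h1 hA hs1 hs2 hwK hQ hS hXw hXQ hcard hcard2
  set s : ℝ := (-1) ^ K with hsd
  have hsabs : |s| = 1 := by rw [hsd, abs_pow, abs_neg, abs_one, one_pow]
  set M := X / Q with hMd
  have hAp : ∀ p ∈ A, p.Prime := fun p hp => (hA p hp).1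
  set V := bp rc A with hV
  have hV0 : 0 ≤ V := bp_nonneg rc rc_le_one A
  have hV1 : V ≤ 1 := bp_le_one rc rc_nonneg rc_le_one A
  have hVh : 1 / 2 ≤ V := by
    have e1 := rho_le rc rc_nonneg rc_le_one A 0
    rw [rho_zero, zero_add, pow_one] at e1
    linarith
  have hM0 : (0 : ℝ) ≤ M := Nat.cast_nonneg _
  have hMS : ((S1 + S2 + 8 * T0 + 2 : ℕ) : ℝ) ≤ M := by exact_mod_cast hS
  push_cast at hMS
  have hS1' : 16 * R * rT / c1 ≤ M := by
    have a1 : (0 : ℝ) ≤ S2 := Nat.cast_nonneg _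
    linarith
  have hS2' : 80 * (c1 / 2 + R) / c1 ≤ M := by
    have a1 : (0 : ℝ) ≤ S1 := Nat.cast_nonneg _
    linarith
  have hT8 : 8 * (T0 : ℝ) ≤ M := by
    have a1 : (0 : ℝ) ≤ S1 := Nat.cast_nonneg _
    have a2 : (0 : ℝ) ≤ S2 := Nat.cast_nonneg _
    linarith
  have hw0 : (0 : ℝ) < w := by
    by_contra hc
    push Not at hc
    have : c0 * w ≤ 0 := mul_nonpos_of_nonneg_of_nonpos hc0.le hc
    have : (0 : ℝ) ≤ K := Nat.cast_nonneg _
    linarith
  -- the remainder of the truncated product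
  have hes : 2 * c1 ≤ rho rc K A := by
    have e1 := rho_ge rc rc_nonneg rc_le_one A K
    have e2 := es_ge rc rc_nonneg (1 / (w : ℝ)) A (fun p hp => by
      rw [rc_eq (hAp p hp).pos]
      apply one_div_le_one_div_of_le hw0
      exact_mod_cast (hA p hp).2.le) (by positivity) (K + 1)
    have e3 : c0 / 2 ≤ max 0 (∑ p ∈ A, rc p - ((K + 1 : ℕ) : ℝ) * (1 / (w : ℝ))) := by
      apply le_max_of_le_right
      have : ((K + 1 : ℕ) : ℝ) * (1 / (w : ℝ)) ≤ c0 / 2 := by
        rw [mul_one_div, div_le_iff₀ hw0]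
        push_cast
        linarith
      linarith
    have e4 : (c0 / 2) ^ (K + 1) / ((K + 1).factorial : ℝ) ≤ es rc (K + 1) A := by
      refine le_trans ?_ e2
      apply div_le_div_of_nonneg_right _ hfac.le
      exact pow_le_pow_left₀ (by positivity) e3 _
    have e5 : (1 / 2) * ((c0 / 2) ^ (K + 1) / ((K + 1).factorial : ℝ)) ≤ V * es rc (K + 1) A :=
      mul_le_mul hVh e4 (by positivity) hV0
    have e6 : 2 * c1 = (1 / 2) * ((c0 / 2) ^ (K + 1) / ((K + 1).factorial : ℝ)) := by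
      rw [hc1]; ring
    rw [e6]
    exact e5.trans e1
  -- deviations
  have hdev : ∀ Y : ℕ, (M : ℝ) / 4 ≤ Y → Y ≤ M → ∀ e : ℕ, 1 ≤ e → e ≤ T0 →
      c1 * ((Y / e : ℕ) : ℝ) ≤ s * ((NA A (Y / e) : ℝ) - ((Y / e : ℕ) : ℝ) * V) := by
    intro Y hY1 hY2 e he1 heT
    have he0 : (0 : ℝ) < e := by exact_mod_cast he1
    have f1 : Y / e < (w + 1) ^ (K + 1) := lt_of_le_of_lt ((Nat.div_le_self _ _).trans hY2) hXw
    have f2 := count_main w A hA (hs2.trans (by norm_num)) K (Y / e) f1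
    have f3 : (Y : ℝ) / e < ((Y / e : ℕ) : ℝ) + 1 := by
      rw [div_lt_iff₀ he0]
      have := Nat.lt_mul_div_succ Y he1
      have h5 : (Y : ℝ) < ((e * (Y / e + 1) : ℕ) : ℝ) := by exact_mod_cast this
      push_cast at h5
      push_cast
      linarith
    have f4 : (M : ℝ) / (8 * T0) ≤ ((Y / e : ℕ) : ℝ) := by
      have g1 : (M : ℝ) / (4 * T0) ≤ (Y : ℝ) / e := by
        rw [div_le_div_iff₀ (by positivity) he0]
        have heT' : (e : ℝ) ≤ T0 := by exact_mod_cast heT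
        calc (M : ℝ) * e ≤ M * T0 := mul_le_mul_of_nonneg_left heT' hM0
          _ ≤ (4 * Y) * T0 := mul_le_mul_of_nonneg_right (by linarith) hT0p.le
          _ = _ := by ring
      have g2 : (M : ℝ) / (4 * T0) = M / (8 * T0) + M / (8 * T0) := by
        field_simp
        ring
      have g3 : 1 ≤ (M : ℝ) / (8 * T0) := by
        rw [one_le_div (by positivity)]
        exact hT8
      linarith
    have f5 : 2 * ((A.card : ℝ) + 1) ^ K ≤ c1 * ((Y / e : ℕ) : ℝ) := by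
      have g1 : τ ≤ c1 / (16 * T0) := min_le_left _ _
      calc 2 * ((A.card : ℝ) + 1) ^ K ≤ 2 * (τ * M) := by linarith
        _ ≤ 2 * (c1 / (16 * T0) * M) := by
            have := mul_le_mul_of_nonneg_right g1 hM0
            linarith
        _ = c1 * (M / (8 * T0)) := by
            field_simp
            ring
        _ ≤ _ := mul_le_mul_of_nonneg_left f4 hc1p.le
    have f6 : ((Y / e : ℕ) : ℝ) * (2 * c1) ≤ ((Y / e : ℕ) : ℝ) * rho rc K A :=
      mul_le_mul_of_nonneg_left hes (Nat.cast_nonneg _)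
    linarith
  set SG := Sg h A (2 * Q) with hSG
  have hSG0 : 0 ≤ SG := Sg_nonneg h0 A _
  have hSGR : SG ≤ R := Sg_le h0 h1 hCh A _
  have hG : ∀ Y : ℕ, (M : ℝ) / 4 ≤ Y → Y ≤ M →
      (c1 / 2) * Y ≤ s * (GS h A Y - V * SG * Y) := by
    intro Y hY1 hY2
    have hYp : 1 ≤ Y := by
      by_contra hc
      have : Y = 0 := by omega
      rw [this] at hY1
      have h2 : (2 : ℝ) ≤ M := by
        have : 2 ≤ M := by omega
        exact_mod_cast this
      simp at hY1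
      linarith
    have g1 := dev h0 h1 hCh A hAp hsabs hc1p.le hT01 hYp (hY2.trans hXQ) (hdev Y hY1 hY2)
    have g2 : R * rT ≤ c1 * Y / 4 := by
      rw [div_le_iff₀ hc1p] at hS1'
      nlinarith
    have hY0 : (0 : ℝ) ≤ Y := Nat.cast_nonneg _
    have g3 : (Y : ℝ) * (R / rT) ≤ Y * (c1 / 4) := mul_le_mul_of_nonneg_left hRT hY0
    linarith
  -- summation by parts
  have hM2 : 2 ≤ M := by omega
  set Z : ℝ := ∑ m ∈ Ioc 0 M, wt Q X m with hZ
  have hW : (c1 / 2) * Z ≤ s * (WM h A Q X - V * SG * Z) := by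
    have k1 := abel (D := fun m : ℕ => s * (GS h A m - V * SG * m) - (c1 / 2) * m)
      (w := wt Q X) (M := M) (by omega) (by simp [GS]) (wt_nonneg hQ (by omega) le_rfl)
      (fun m hm _ => wt_anti hm) ?_ ?_
    · have k2 : ∑ m ∈ range M, ((s * (GS h A (m + 1) - V * SG * ((m + 1 : ℕ) : ℝ)) -
          (c1 / 2) * ((m + 1 : ℕ) : ℝ)) - (s * (GS h A m - V * SG * m) - (c1 / 2) * m)) * wt Q X (m + 1) =
          s * (∑ m ∈ range M, (if Fr A (m + 1) then gg h (m + 1) else 0) * wt Q X (m + 1) -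
            V * SG * ∑ m ∈ range M, wt Q X (m + 1)) -
            (c1 / 2) * ∑ m ∈ range M, wt Q X (m + 1) := by
        rw [mul_sum, mul_sum, ← sum_sub_distrib, mul_sum, ← sum_sub_distrib]
        refine sum_congr rfl fun m _ => ?_
        rw [← GS_succ]
        push_cast
        ring
      rw [k2] at k1
      rw [sum_range_eq (fun m => wt Q X m)] at k1
      rw [sum_range_eq (fun m => (if Fr A m then gg h m else 0) * wt Q X m)] at k1
      have k3 : ∑ m ∈ Ioc 0 M, (if Fr A m then gg h m else 0) * wt Q X m = WM h A Q X := by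
        unfold WM
        rw [sum_filter]
        refine sum_congr rfl fun m _ => ?_
        split_ifs <;> simp
      rw [k3] at k1
      linarith
    · intro m hm1 hmM
      by_cases hc : 2 * (m + 1) ≤ M
      · left
        rw [wt_eq (by omega) hc, wt_eq hm1 (by omega)]
      · right
        have hm4 : (M : ℝ) / 4 ≤ m := by
          have : M ≤ 4 * m := by omega
          have h4 : (M : ℝ) ≤ 4 * m := by exact_mod_cast this
          linarith
        have := hG m hm4 hmM.le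
        linarith
    · have := hG M (by linarith) le_rfl
      linarith
  -- conclusion
  have hZb := Z_bound (Q := Q) (X := X) hQ hM2
  rw [← hMd, ← hZ] at hZb
  have hT := TQ_approx h0 h1 hCh A hAp hQ
  rw [← hSG, ← hV, ← hR] at hT
  have hQ0 : (0 : ℝ) < Q := by exact_mod_cast hQ
  have hX0 : (0 : ℝ) ≤ X := Nat.cast_nonneg _
  have hsq : R * √(6 * 2 ^ A.card / (Q : ℝ)) ≤ c1 / 16 := by
    have e1 : 6 * 2 ^ A.card / (Q : ℝ) ≤ (c1 / (16 * R)) ^ 2 := by
      have e2 : τ ≤ (c1 / (16 * R)) ^ 2 / 6 := min_le_right _ _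
      rw [div_le_iff₀ hQ0]
      calc 6 * (2 : ℝ) ^ A.card ≤ 6 * (τ * Q) := by linarith
        _ ≤ 6 * ((c1 / (16 * R)) ^ 2 / 6 * Q) := by
            have := mul_le_mul_of_nonneg_right e2 hQ0.le
            linarith
        _ = _ := by ring
    have e3 : √(6 * 2 ^ A.card / (Q : ℝ)) ≤ c1 / (16 * R) := by
      rw [Real.sqrt_le_left (by positivity)]
      exact e1
    calc R * √(6 * 2 ^ A.card / (Q : ℝ)) ≤ R * (c1 / (16 * R)) :=
          mul_le_mul_of_nonneg_left e3 hR0.le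
      _ = c1 / 16 := by field_simp
  have hQX : 5 * (Q : ℝ) * (c1 / 2 + R) ≤ c1 / 16 * X := by
    have e1 : M * Q ≤ X := Nat.div_mul_le_self X Q
    have e2 : (M : ℝ) * Q ≤ X := by exact_mod_cast e1
    rw [div_le_iff₀ hc1p] at hS2'
    have e3 := mul_le_mul_of_nonneg_right hS2' hQ0.le
    nlinarith
  have hlog2 : (1 : ℝ) / 2 ≤ Real.log 2 := by
    have := Real.log_two_gt_d9
    linarith
  have key : s * (WM h A Q X - X * TQ h A Q) = s * (WM h A Q X - V * SG * Z) +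
      (s * (V * SG) * (Z - X * Real.log 2) - s * X * (TQ h A Q - V * Real.log 2 * SG)) := by ring
  rw [key]
  have b1 : |s * (V * SG) * (Z - X * Real.log 2)| ≤ R * (5 * Q) := by
    rw [abs_mul, abs_mul, hsabs, one_mul, abs_of_nonneg (by positivity : 0 ≤ V * SG)]
    have : V * SG ≤ R := by nlinarith
    exact mul_le_mul this hZb (abs_nonneg _) hR0.le
  have b2 : |s * X * (TQ h A Q - V * Real.log 2 * SG)| ≤ X * (c1 / 16) := by
    rw [abs_mul, abs_mul, hsabs, one_mul, abs_of_nonneg hX0]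
    exact mul_le_mul_of_nonneg_left (hT.trans hsq) hX0
  have b1' := (abs_le.mp b1).1
  have b2' := (abs_le.mp b2).2
  have b3 : X * (1 / 2) - 5 * Q ≤ Z := by
    have := (abs_le.mp hZb).1
    have := mul_le_mul_of_nonneg_left hlog2 hX0
    linarith
  have b4 : (c1 / 2) * (X * (1 / 2) - 5 * Q) ≤ (c1 / 2) * Z :=
    mul_le_mul_of_nonneg_left b3 (by positivity)
  nlinarith

end Pool.Agent.H537.FG
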