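import Pool.Agent.H537.FG.Harm

/-! Multiplicative weights `∏ (1 + h p)` and their expansion over squarefree divisors. -/

set_option autoImplicit false
set_option maxHeartbeats 4000000

open Finset

namespace Pool.Agent.H537.FG

open Pool.Agent.N914.MR

/-- the product of `h` over the prime factors -/
noncomputable def hh (h : ℕ → ℝ) (e : ℕ) : ℝ := ∏ p ∈ e.primeFactors, h p

/-- the product of `1 + h` over the prime factors -/
noncomputable def gg (h : ℕ → ℝ) (m : ℕ) : ℝ := ∏ p ∈ m.primeFactors, (1 + h p)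

theorem hh_nonneg {h : ℕ → ℝ} (h0 : ∀ p, p.Prime → 0 ≤ h p) (e : ℕ) : 0 ≤ hh h e :=
  prod_nonneg fun p hp => h0 p (Nat.prime_of_mem_primeFactors hp)

theorem hh_one (h : ℕ → ℝ) : hh h 1 = 1 := by simp [hh]

theorem one_le_gg {h : ℕ → ℝ} (h0 : ∀ p, p.Prime → 0 ≤ h p) (m : ℕ) : 1 ≤ gg h m := by
  unfold gg
  calc (1 : ℝ) = ∏ p ∈ m.primeFactors, (1 : ℝ) := by simp
    _ ≤ _ := prod_le_prod (fun _ _ => zero_le_one) fun p hp => by
        linarith [h0 p (Nat.prime_of_mem_primeFactors hp)]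

theorem gg_eq (h : ℕ → ℝ) {m : ℕ} (hm : m ≠ 0) :
    gg h m = ∑ e ∈ m.divisors with Squarefree e, hh h e := by
  classical
  unfold gg
  rw [prod_one_add]
  symm
  apply Finset.sum_bij (fun e _ => e.primeFactors)
  · intro e he
    rw [mem_filter, Nat.mem_divisors] at he
    rw [mem_powerset]
    exact Nat.primeFactors_mono he.1.1 hm
  · intro a ha b hb hab
    rw [mem_filter] at ha hb
    rw [← Nat.prod_primeFactors_of_squarefree ha.2, ← Nat.prod_primeFactors_of_squarefree hb.2, hab]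
  · intro t ht
    rw [mem_powerset] at ht
    have hp : ∀ p ∈ t, p.Prime := fun p hp => Nat.prime_of_mem_primeFactors (ht hp)
    refine ⟨∏ p ∈ t, p, ?_, Nat.primeFactors_prod hp⟩
    rw [mem_filter, Nat.mem_divisors]
    refine ⟨⟨?_, hm⟩, ?_⟩
    · exact (prod_dvd_prod_of_subset _ _ _ ht).trans (Nat.prod_primeFactors_dvd m)
    · apply Finset.squarefree_prod_of_pairwise_isCoprime
      · intro p hp' q hq' hpq
        exact Nat.coprime_iff_isRelPrime.mp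
          ((Nat.coprime_primes (hp p (mem_coe.mp hp')) (hp q (mem_coe.mp hq'))).mpr hpq)
      · intro p hp'
        exact (hp p hp').prime.squarefree
  · intro e _
    rfl

/-- squarefree free integers up to `N` -/
def Sf (A : Finset ℕ) (N : ℕ) : Finset ℕ := (Icc 1 N).filter fun e => Squarefree e ∧ Fr A e

theorem Fr_mul {A : Finset ℕ} (hA : ∀ p ∈ A, p.Prime) {e j : ℕ} : Fr A (e * j) ↔ Fr A e ∧ Fr A j := by
  unfold Fr
  constructor
  · intro h
    exact ⟨fun p hp hd => h p hp (hd.mul_right _), fun p hp hd => h p hp (hd.mul_left _)⟩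
  · rintro ⟨h1, h2⟩ p hp hd
    rcases (hA p hp).dvd_mul.mp hd with h | h
    · exact h1 p hp h
    · exact h2 p hp h

theorem swap (h : ℕ → ℝ) (A : Finset ℕ) (hA : ∀ p ∈ A, p.Prime) (φ : ℕ → ℝ) (u v : ℕ) :
    ∑ m ∈ (Ioc u v).filter (Fr A), gg h m * φ m =
      ∑ e ∈ Sf A v, hh h e * ∑ j ∈ (Ioc (u / e) (v / e)).filter (Fr A), φ (e * j) := by
  classical
  have h1 : ∑ m ∈ (Ioc u v).filter (Fr A), gg h m * φ m =
      ∑ m ∈ (Ioc u v).filter (Fr A), ∑ e ∈ Sf A v, if e ∣ m then hh h e * φ m else 0 := by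
    refine sum_congr rfl fun m hm => ?_
    rw [mem_filter, mem_Ioc] at hm
    have hm0 : m ≠ 0 := by omega
    rw [gg_eq h hm0, sum_mul, ← sum_filter]
    apply sum_congr _ fun _ _ => rfl
    ext e
    unfold Sf
    simp only [mem_filter, Nat.mem_divisors, mem_Icc]
    constructor
    · rintro ⟨⟨hd, _⟩, hsq⟩
      refine ⟨⟨⟨Nat.pos_of_dvd_of_pos hd (by omega), (Nat.le_of_dvd (by omega) hd).trans hm.1.2⟩,
        hsq, ?_⟩, hd⟩
      intro p hp hpe
      exact hm.2 p hp (hpe.trans hd)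
    · rintro ⟨⟨_, hsq, _⟩, hd⟩
      exact ⟨⟨hd, hm0⟩, hsq⟩
  rw [h1, sum_comm]
  refine sum_congr rfl fun e he => ?_
  unfold Sf at he
  rw [mem_filter, mem_Icc] at he
  obtain ⟨⟨he1, _⟩, _, hfe⟩ := he
  rw [← sum_filter, ← mul_sum]
  congr 1
  symm
  apply Finset.sum_bij (fun j _ => e * j)
  · intro j hj
    rw [mem_filter, mem_Ioc] at hj
    rw [mem_filter, mem_filter, mem_Ioc]
    refine ⟨⟨⟨?_, ?_⟩, (Fr_mul hA).mpr ⟨hfe, hj.2⟩⟩, dvd_mul_right _ _⟩
    · rw [mul_comm]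
      exact (Nat.div_lt_iff_lt_mul he1).mp hj.1.1
    · rw [mul_comm]
      exact (Nat.le_div_iff_mul_le he1).mp hj.1.2
  · intro a _ b _ hab
    exact Nat.eq_of_mul_eq_mul_left he1 hab
  · intro m hm
    rw [mem_filter, mem_filter, mem_Ioc] at hm
    obtain ⟨⟨⟨h2, h3⟩, h4⟩, j, rfl⟩ := hm
    refine ⟨j, ?_, rfl⟩
    rw [mem_filter, mem_Ioc]
    refine ⟨⟨?_, ?_⟩, ((Fr_mul hA).mp h4).2⟩
    · rw [Nat.div_lt_iff_lt_mul he1, mul_comm]
      exact h2
    · rw [Nat.le_div_iff_mul_le he1, mul_comm]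
      exact h3
  · intro _ _
    rfl

/-- Rankin's bound -/
theorem rankin {u : ℕ → ℝ} (h0 : ∀ p, p.Prime → 0 ≤ u p) (A : Finset ℕ) (N : ℕ) :
    ∑ e ∈ Sf A N, hh u e ≤ Real.exp (∑ p ∈ (Icc 1 N).filter Nat.Prime, u p) := by
  classical
  have h1 : ∑ e ∈ Sf A N, hh u e ≤ ∏ p ∈ (Icc 1 N).filter Nat.Prime, (1 + u p) := by
    rw [prod_one_add]
    have h2 : ∑ e ∈ Sf A N, hh u e = ∑ t ∈ (Sf A N).image Nat.primeFactors, ∏ p ∈ t, u p := by
      rw [sum_image]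
      · rfl
      · intro a ha b hb hab
        unfold Sf at ha hb
        rw [mem_coe, mem_filter] at ha hb
        rw [← Nat.prod_primeFactors_of_squarefree ha.2.1, ← Nat.prod_primeFactors_of_squarefree hb.2.1,
          hab]
    rw [h2]
    apply sum_le_sum_of_subset_of_nonneg
    · intro t ht
      rw [mem_image] at ht
      obtain ⟨e, he, rfl⟩ := ht
      unfold Sf at he
      rw [mem_filter, mem_Icc] at he
      rw [mem_powerset]
      intro p hp
      have hp' := Nat.prime_of_mem_primeFactors hp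
      rw [mem_filter, mem_Icc]
      exact ⟨⟨hp'.one_le, (Nat.le_of_dvd (by omega) (Nat.dvd_of_mem_primeFactors hp)).trans he.1.2⟩, hp'⟩
    · intro t ht _
      rw [mem_powerset] at ht
      exact prod_nonneg fun p hp => h0 p (mem_filter.mp (ht hp)).2
  refine h1.trans ?_
  rw [Real.exp_sum]
  apply prod_le_prod
  · intro p hp
    linarith [h0 p (mem_filter.mp hp).2]
  · intro p _
    have := Real.add_one_le_exp (u p)
    linarith

/-- the constant `∑ n^(-3/2)` -/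
noncomputable def Z32 : ℝ := ∑' n : ℕ, 1 / (n : ℝ) ^ (3 / 2 : ℝ)

theorem Z32_nonneg : 0 ≤ Z32 := tsum_nonneg fun _ => by positivity

theorem sum_le_Z32 (s : Finset ℕ) : ∑ p ∈ s, 1 / (p : ℝ) ^ (3 / 2 : ℝ) ≤ Z32 :=
  Summable.sum_le_tsum _ (fun _ _ => by positivity)
    (Real.summable_one_div_nat_rpow.mpr (by norm_num))

/-- the constant of the Rankin bound -/
noncomputable def CR (Ch : ℝ) : ℝ := Real.exp (Ch * Z32)

theorem CR_pos (Ch : ℝ) : 0 < CR Ch := Real.exp_pos _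

theorem hh_sqrt {h : ℕ → ℝ} {e : ℕ} (hsq : Squarefree e) :
    hh h e / √(e : ℝ) = hh (fun p => h p / √(p : ℝ)) e := by
  unfold hh
  rw [prod_div_distrib]
  congr 1
  conv_lhs => rw [← Nat.prod_primeFactors_of_squarefree hsq]
  rw [Nat.cast_prod, Real.sqrt_prod _ fun _ _ => Nat.cast_nonneg _]

theorem sum_sqrt_le {h : ℕ → ℝ} {Ch : ℝ} (h0 : ∀ p, p.Prime → 0 ≤ h p)
    (h1 : ∀ p, p.Prime → h p ≤ Ch / p) (hCh : 0 ≤ Ch) (A : Finset ℕ) (N : ℕ) :
    ∑ e ∈ Sf A N, hh h e / √(e : ℝ) ≤ CR Ch := by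
  have e1 : ∑ e ∈ Sf A N, hh h e / √(e : ℝ) = ∑ e ∈ Sf A N, hh (fun p => h p / √(p : ℝ)) e := by
    refine sum_congr rfl fun e he => ?_
    unfold Sf at he
    rw [mem_filter] at he
    exact hh_sqrt he.2.1
  rw [e1]
  refine (rankin (fun p hp => div_nonneg (h0 p hp) (Real.sqrt_nonneg _)) A N).trans ?_
  unfold CR
  apply Real.exp_le_exp.mpr
  have e2 : ∑ p ∈ (Icc 1 N).filter Nat.Prime, h p / √(p : ℝ) ≤
      ∑ p ∈ (Icc 1 N).filter Nat.Prime, Ch * (1 / (p : ℝ) ^ (3 / 2 : ℝ)) := by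
    refine sum_le_sum fun p hp => ?_
    rw [mem_filter] at hp
    have hp0 : (0 : ℝ) < p := by exact_mod_cast hp.2.pos
    have e3 : (p : ℝ) ^ (3 / 2 : ℝ) = p * √(p : ℝ) := by
      rw [Real.sqrt_eq_rpow, ← Real.rpow_one_add' (by positivity) (by norm_num)]
      norm_num
    rw [e3, mul_one_div, ← div_div]
    exact div_le_div_of_nonneg_right (h1 p hp.2) (Real.sqrt_nonneg _)
  refine e2.trans ?_
  rw [← mul_sum]
  exact mul_le_mul_of_nonneg_left (sum_le_Z32 _) hCh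

/-- the truncated singular sum -/
noncomputable def Sg (h : ℕ → ℝ) (A : Finset ℕ) (N : ℕ) : ℝ := ∑ e ∈ Sf A N, hh h e / (e : ℝ)

theorem Sg_nonneg {h : ℕ → ℝ} (h0 : ∀ p, p.Prime → 0 ≤ h p) (A : Finset ℕ) (N : ℕ) : 0 ≤ Sg h A N :=
  sum_nonneg fun e _ => div_nonneg (hh_nonneg h0 e) (Nat.cast_nonneg _)

theorem sqrt_le_self_nat {e : ℕ} (he : 1 ≤ e) : √(e : ℝ) ≤ e := by
  have h1 : (1 : ℝ) ≤ e := by exact_mod_cast he
  rw [Real.sqrt_le_left (by linarith)]
  nlinarith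

theorem Sg_le {h : ℕ → ℝ} {Ch : ℝ} (h0 : ∀ p, p.Prime → 0 ≤ h p)
    (h1 : ∀ p, p.Prime → h p ≤ Ch / p) (hCh : 0 ≤ Ch) (A : Finset ℕ) (N : ℕ) : Sg h A N ≤ CR Ch := by
  refine le_trans ?_ (sum_sqrt_le h0 h1 hCh A N)
  refine sum_le_sum fun e he => ?_
  unfold Sf at he
  rw [mem_filter, mem_Icc] at he
  have he1 : (0 : ℝ) < e := by
    have : 0 < e := by omega
    exact_mod_cast this
  exact div_le_div_of_nonneg_left (hh_nonneg h0 e) (Real.sqrt_pos.mpr he1) (sqrt_le_self_nat he.1.1)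

end Pool.Agent.H537.FG
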