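import Pool.Graph.R_pool_sql_team_seeded_64922ed1.X50.LG.Root

/-! The primes with a root in a logarithmically short range. -/

set_option autoImplicit false
set_option maxHeartbeats 4000000

open Finset Polynomial

namespace Pool.Agent.H537.FG

open Pool.Agent.X50.LG

open Classical in
theorem root_range (f : ℤ[X]) (hf : Irreducible (f.map (Int.castRingHom ℚ))) {θ : ℝ} (hθ : 0 < θ) :
    ∃ c : ℝ, 0 < c ∧ ∃ w0 : ℕ, ∀ w z : ℕ, w0 ≤ w → (1 + θ) * Real.log w ≤ Real.log z →
      c ≤ ∑ p ∈ (Ioc w z).filter (fun p => p.Prime ∧ HasRoot f p), (1 : ℝ) / p := by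
  have hd : 0 < f.natDegree := by
    rw [← natDegree_map_eq_of_injective (RingHom.injective_int (Int.castRingHom ℚ)) f]
    exact hf.natDegree_pos
  set d : ℝ := (f.natDegree : ℝ) with hdr
  have hd0 : 0 < d := by
    rw [hdr]
    exact_mod_cast hd
  obtain ⟨n₀, hn₀⟩ := dens_root f hf (ε := 1 / (2 * d)) (by positivity)
  obtain ⟨q, hq⟩ := exists_nat_gt (8 * d + 1)
  have hq1 : (1 : ℝ) < q := by linarith
  have hq0 : 0 < q := by
    have : (0 : ℝ) < q := by linarith
    exact_mod_cast this
  have hlq : 0 < Real.log q := Real.log_pos hq1
  obtain ⟨w1, hw1⟩ := exists_nat_gt (Real.exp (2 * Real.log q / θ))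
  set c : ℝ := θ / (2 * Real.log q) / (4 * d * (1 + θ)) with hc
  refine ⟨c, by positivity, max n₀ (max w1 2), ?_⟩
  intro w z hw hz
  have hwn : n₀ ≤ w := (le_max_left _ _).trans hw
  have hww : w1 ≤ w := (le_max_left _ _).trans ((le_max_right _ _).trans hw)
  have hw2 : 2 ≤ w := (le_max_right _ _).trans ((le_max_right _ _).trans hw)
  have hw0 : (0 : ℝ) < w := by
    have : 0 < w := by omega
    exact_mod_cast this
  have hlw : 0 < Real.log w := Real.log_pos (by exact_mod_cast (by omega : 1 < w))
  have hbig : 2 * Real.log q / θ ≤ Real.log w := by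
    rw [Real.le_log_iff_exp_le hw0]
    have : (w1 : ℝ) ≤ w := by exact_mod_cast hww
    linarith
  -- one step
  have hstep : ∀ j : ℕ, Real.log w + (j : ℝ) * Real.log q ≤ (1 + θ) * Real.log w →
      (j : ℝ) * (1 / (4 * d * (1 + θ) * Real.log w)) ≤
        ∑ p ∈ (Ioc w (w * q ^ j)).filter (fun p => p.Prime ∧ HasRoot f p), (1 : ℝ) / p := by
    intro j
    induction j with
    | zero => intro _; simp
    | succ j ih =>
      intro hj
      have hj' : Real.log w + (j : ℝ) * Real.log q ≤ (1 + θ) * Real.log w := by
        push_cast at hj
        linarith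
      have h1 := ih hj'
      set n1 := w * q ^ j with hn1
      set n2 := w * q ^ (j + 1) with hn2
      have h12 : n2 = n1 * q := by rw [hn1, hn2, pow_succ, mul_assoc]
      have hwn1 : w ≤ n1 := by
        rw [hn1]
        exact Nat.le_mul_of_pos_right _ (pow_pos hq0 j)
      have hn12 : n1 ≤ n2 := by
        rw [h12]
        exact Nat.le_mul_of_pos_right _ hq0
      have hn10 : (0 : ℝ) < n1 := by
        have : 0 < n1 := by omega
        exact_mod_cast this
      have hn20 : (0 : ℝ) < n2 := by
        have : 0 < n2 := by omega
        exact_mod_cast this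
      have hlog2 : Real.log n2 ≤ (1 + θ) * Real.log w := by
        have : Real.log n2 = Real.log w + ((j + 1 : ℕ) : ℝ) * Real.log q := by
          rw [hn2]
          push_cast
          rw [Real.log_mul hw0.ne' (by positivity), Real.log_pow]
          push_cast
          ring
        rw [this]
        exact hj
      have hlog2p : 0 < Real.log n2 := Real.log_pos (by
        have : 1 < n2 := by omega
        exact_mod_cast this)
      -- mass of the new range
      have hnew : 1 / (4 * d * (1 + θ) * Real.log w) ≤
          ∑ p ∈ (Ioc n1 n2).filter (fun p => p.Prime ∧ HasRoot f p), (1 : ℝ) / p := by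
        have a1 := hn₀ n2 (by omega)
        have a2 : ∑ p ∈ RP f n2, Real.log p ≤ Real.log 4 * n1 +
            ∑ p ∈ (Ioc n1 n2).filter (fun p => p.Prime ∧ HasRoot f p), Real.log p := by
          have b1 : ∑ p ∈ RP f n2, Real.log p ≤ ∑ p ∈ (Ioc 0 n1).filter Nat.Prime, Real.log p +
              ∑ p ∈ (Ioc n1 n2).filter (fun p => p.Prime ∧ HasRoot f p), Real.log p := by
            rw [← sum_union]
            · apply sum_le_sum_of_subset_of_nonneg
              · intro p hp
                unfold RP at hp
                rw [mem_filter, mem_range] at hp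
                rw [mem_union, mem_filter, mem_filter, mem_Ioc, mem_Ioc]
                have := hp.2.1.pos
                by_cases hc : p ≤ n1
                · left
                  exact ⟨⟨this, hc⟩, hp.2.1⟩
                · right
                  exact ⟨⟨by omega, by omega⟩, hp.2⟩
              · intro p _ _
                exact Real.log_natCast_nonneg p
            · rw [disjoint_left]
              intro p h1 h2
              rw [mem_filter, mem_Ioc] at h1 h2
              omega
          have b2 : ∑ p ∈ (Ioc 0 n1).filter Nat.Prime, Real.log p ≤ Real.log 4 * n1 := by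
            have := Chebyshev.theta_le_log4_mul_x (x := (n1 : ℝ)) hn10.le
            refine le_trans (le_of_eq ?_) this
            unfold Chebyshev.theta
            rw [Nat.floor_natCast]
          linarith
        have a3 : Real.log 4 * n1 ≤ n2 / (4 * d) := by
          have : Real.log 4 ≤ 2 := by
            have := Real.log_two_lt_d9
            have h4 : Real.log 4 = 2 * Real.log 2 := by
              rw [show (4 : ℝ) = 2 ^ 2 by norm_num, Real.log_pow]
              push_cast
              ring
            rw [h4]
            linarith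
          have e1 : (n2 : ℝ) = n1 * q := by exact_mod_cast h12
          rw [le_div_iff₀ (by positivity), e1]
          have e2 : Real.log 4 * n1 ≤ 2 * n1 := mul_le_mul_of_nonneg_right this hn10.le
          have e3 : Real.log 4 * n1 * (4 * d) ≤ 2 * n1 * (4 * d) :=
            mul_le_mul_of_nonneg_right e2 (by positivity)
          have e4 : n1 * (8 * d) ≤ n1 * q := mul_le_mul_of_nonneg_left (by linarith) hn10.le
          linarith
        have a4 : (n2 : ℝ) / (4 * d) ≤
            ∑ p ∈ (Ioc n1 n2).filter (fun p => p.Prime ∧ HasRoot f p), Real.log p := by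
          have e1 : (1 / d - 1 / (2 * d)) * (n2 : ℝ) = n2 / (4 * d) + n2 / (4 * d) := by
            field_simp
            ring
          rw [e1] at a1
          linarith
        have a5 : ∑ p ∈ (Ioc n1 n2).filter (fun p => p.Prime ∧ HasRoot f p), Real.log p ≤
            (n2 * Real.log n2) *
              ∑ p ∈ (Ioc n1 n2).filter (fun p => p.Prime ∧ HasRoot f p), (1 : ℝ) / p := by
          rw [mul_sum]
          refine sum_le_sum fun p hp => ?_
          rw [mem_filter, mem_Ioc] at hp
          have hp0 : (0 : ℝ) < p := by exact_mod_cast hp.2.1.pos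
          have hpn : (p : ℝ) ≤ n2 := by exact_mod_cast hp.1.2
          have hlp : Real.log p ≤ Real.log n2 := Real.log_le_log hp0 hpn
          have hlp0 : 0 ≤ Real.log p := Real.log_natCast_nonneg p
          rw [mul_one_div, le_div_iff₀ hp0, mul_comm]
          exact mul_le_mul hpn hlp hlp0 hn20.le
        have a6 := a4.trans a5
        set T := ∑ p ∈ (Ioc n1 n2).filter (fun p => p.Prime ∧ HasRoot f p), (1 : ℝ) / p with hT
        have hT0 : 0 ≤ T := sum_nonneg fun _ _ => by positivity
        have a7 : 1 / (4 * d) ≤ Real.log n2 * T := by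
          have : (n2 : ℝ) * (1 / (4 * d)) ≤ n2 * (Real.log n2 * T) := by
            rw [mul_one_div]
            linarith
          exact le_of_mul_le_mul_left this hn20
        have a8 : Real.log n2 * T ≤ (1 + θ) * Real.log w * T := mul_le_mul_of_nonneg_right hlog2 hT0
        rw [div_le_iff₀ (by positivity)]
        rw [div_le_iff₀ (by positivity)] at a7
        nlinarith
      have hsplit : ∑ p ∈ (Ioc w n2).filter (fun p => p.Prime ∧ HasRoot f p), (1 : ℝ) / p =
          ∑ p ∈ (Ioc w n1).filter (fun p => p.Prime ∧ HasRoot f p), (1 : ℝ) / p +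
          ∑ p ∈ (Ioc n1 n2).filter (fun p => p.Prime ∧ HasRoot f p), (1 : ℝ) / p := by
        rw [← sum_union]
        · rw [← filter_union]
          congr 2
          ext p
          rw [mem_union, mem_Ioc, mem_Ioc, mem_Ioc]
          omega
        · rw [disjoint_left]
          intro p h1 h2
          rw [mem_filter, mem_Ioc] at h1 h2
          omega
      rw [hsplit]
      push_cast
      linarith
  -- the number of steps
  set J := ⌊θ * Real.log w / Real.log q⌋₊ with hJ
  have hJ1 : (J : ℝ) ≤ θ * Real.log w / Real.log q := Nat.floor_le (by positivity)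
  have hJ2 : θ * Real.log w / Real.log q < J + 1 := Nat.lt_floor_add_one _
  have hJ3 : (J : ℝ) * Real.log q ≤ θ * Real.log w := by
    rw [le_div_iff₀ hlq] at hJ1
    exact hJ1
  have h2 := hstep J (by linarith)
  have hcJ : c ≤ (J : ℝ) * (1 / (4 * d * (1 + θ) * Real.log w)) := by
    have e1 : 2 ≤ θ * Real.log w / Real.log q := by
      rw [le_div_iff₀ hlq]
      rw [div_le_iff₀ hθ] at hbig
      linarith
    have e2 : θ * Real.log w / Real.log q / 2 ≤ J := by linarith
    calc c = θ * Real.log w / Real.log q / 2 * (1 / (4 * d * (1 + θ) * Real.log w)) := by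
          rw [hc]
          field_simp
      _ ≤ _ := mul_le_mul_of_nonneg_right e2 (by positivity)
  refine hcJ.trans (h2.trans ?_)
  apply sum_le_sum_of_subset_of_nonneg
  · apply filter_subset_filter
    apply Ioc_subset_Ioc_right
    have e1 : ((w * q ^ J : ℕ) : ℝ) ≤ z := by
      have hz0 : (0 : ℝ) < z := by
        by_contra hc'
        have h0 : (z : ℝ) = 0 := le_antisymm (not_lt.mp hc') (Nat.cast_nonneg _)
        rw [h0, Real.log_zero] at hz
        have : 0 < (1 + θ) * Real.log w := by positivity
        linarith
      rw [← Real.log_le_log_iff (by push_cast; positivity) hz0]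
      push_cast
      rw [Real.log_mul hw0.ne' (by positivity), Real.log_pow]
      linarith
    exact_mod_cast e1
  · intro _ _ _
    positivity

end Pool.Agent.H537.FG
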