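import Pool.Agent.H537.FG.Asm
import Pool.Agent.H537.FG.Root
import Pool.Graph.R_pool_sql_team_seeded_64922ed1.X50.LG.Main

/-! Systems of polynomials. -/

set_option autoImplicit false
set_option maxHeartbeats 4000000

open Finset Polynomial Filter

namespace Pool.Agent.H537.FG

/-- the product of the values -/
def val (F : Finset ℤ[X]) (n : ℤ) : ℤ := ∏ f ∈ F, f.eval n

/-- all values are primes up to sign -/
def PrimeAt (F : Finset ℤ[X]) (n : ℕ) : Prop := ∀ f ∈ F, (f.eval (n : ℤ)).natAbs.Prime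

/-- the number of the zeros modulo `p` -/
def om (F : Finset ℤ[X]) (p : ℕ) : ℕ := ((range p).filter fun n : ℕ => (p : ℤ) ∣ val F n).card

/-- the total degree -/
def deg (F : Finset ℤ[X]) : ℕ := ∑ f ∈ F, f.natDegree

theorem om_le {F : Finset ℤ[X]} (hF : ∀ f ∈ F, f.IsPrimitive) {p : ℕ} (hp : p.Prime) :
    om F p ≤ deg F := by
  classical
  have : Fact p.Prime := ⟨hp⟩
  unfold om deg val
  have h1 : ((range p).filter fun n : ℕ => (p : ℤ) ∣ ∏ f ∈ F, f.eval (n : ℤ)) ⊆
      F.biUnion fun f => (range p).filter fun n : ℕ => (p : ℤ) ∣ f.eval (n : ℤ) := by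
    intro n hn
    rw [mem_filter] at hn
    rw [mem_biUnion]
    obtain ⟨f, hf, hd⟩ := ((Nat.prime_iff_prime_int.mp hp).dvd_finsetProd_iff _).mp hn.2
    exact ⟨f, hf, mem_filter.mpr ⟨hn.1, hd⟩⟩
  refine (card_le_card h1).trans (card_biUnion_le.trans ?_)
  refine sum_le_sum fun f hf => ?_
  set g : (ZMod p)[X] := f.map (Int.castRingHom (ZMod p)) with hg
  have hg0 : g ≠ 0 := by
    intro h0
    have h2 : C (p : ℤ) ∣ f := by
      rw [C_dvd_iff_dvd_coeff]
      intro i
      have h3 : g.coeff i = 0 := by rw [h0, coeff_zero]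
      rw [hg, coeff_map] at h3
      rw [← ZMod.intCast_zmod_eq_zero_iff_dvd]
      simpa using h3
    have h3 := hF f hf (p : ℤ) h2
    rw [Int.isUnit_iff] at h3
    have := hp.one_lt
    omega
  calc ((range p).filter fun n : ℕ => (p : ℤ) ∣ f.eval (n : ℤ)).card ≤ g.roots.toFinset.card := by
        apply card_le_card_of_injOn (fun n : ℕ => (n : ZMod p))
        · intro n hn
          rw [mem_coe, mem_filter] at hn
          rw [mem_coe, Multiset.mem_toFinset, mem_roots hg0, IsRoot.def, hg]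
          have h4 : eval ((n : ℕ) : ZMod p) (f.map (Int.castRingHom (ZMod p))) =
              ((f.eval (n : ℤ) : ℤ) : ZMod p) := by
            have := eval_intCast_map (Int.castRingHom (ZMod p)) f (n : ℤ)
            simpa using this
          rw [h4]
          exact (ZMod.intCast_zmod_eq_zero_iff_dvd _ _).mpr hn.2
        · intro n hn m hm hnm
          rw [mem_coe, mem_filter, mem_range] at hn hm
          have h5 : (n : ZMod p) = (m : ZMod p) := hnm
          rw [ZMod.natCast_eq_natCast_iff] at h5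
          exact Nat.ModEq.eq_of_lt_of_lt h5 hn.1 hm.1
    _ ≤ Multiset.card g.roots := Multiset.toFinset_card_le _
    _ ≤ g.natDegree := card_roots' g
    _ ≤ f.natDegree := natDegree_map_le

/-- the weight at `p` -/
noncomputable def hw (F : Finset ℤ[X]) (p : ℕ) : ℝ := (om F p : ℝ) / ((p : ℝ) - om F p)

theorem hw_nonneg {F : Finset ℤ[X]} {p : ℕ} (h : om F p < p) : 0 ≤ hw F p := by
  unfold hw
  have : (om F p : ℝ) < p := by exact_mod_cast h
  exact div_nonneg (Nat.cast_nonneg _) (by linarith)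

theorem hw_le {F : Finset ℤ[X]} {p : ℕ} {D : ℕ} (hD : 1 ≤ D) (h : om F p < p) (hom : om F p ≤ D) :
    hw F p ≤ 2 * (D : ℝ) ^ 2 / p := by
  unfold hw
  have h1 : (om F p : ℝ) + 1 ≤ p := by exact_mod_cast h
  have h0 : (0 : ℝ) ≤ om F p := Nat.cast_nonneg _
  have hp0 : (0 : ℝ) < p := by linarith
  have hD1 : (1 : ℝ) ≤ D := by exact_mod_cast hD
  have h2 : (om F p : ℝ) ≤ D := by exact_mod_cast hom
  rw [div_le_div_iff₀ (by linarith) hp0]
  by_cases hc : (p : ℝ) ≤ 2 * D
  · calc (om F p : ℝ) * p ≤ D * (2 * D) := mul_le_mul h2 hc hp0.le (by linarith)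
      _ = 2 * (D : ℝ) ^ 2 * 1 := by ring
      _ ≤ _ := mul_le_mul_of_nonneg_left (by linarith) (by positivity)
  · push Not at hc
    have h3 : (p : ℝ) / 2 ≤ p - om F p := by linarith
    calc (om F p : ℝ) * p ≤ D * p := mul_le_mul_of_nonneg_right h2 hp0.le
      _ ≤ D ^ 2 * p := by
          apply mul_le_mul_of_nonneg_right _ hp0.le
          nlinarith
      _ = 2 * (D : ℝ) ^ 2 * (p / 2) := by ring
      _ ≤ _ := mul_le_mul_of_nonneg_left h3 (by positivity)

theorem gg_hw {F : Finset ℤ[X]} (hadm : ∀ p : ℕ, p.Prime → om F p < p) (m : ℕ) :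
    gg (hw F) m = ∏ p ∈ m.primeFactors, (1 - (om F p : ℝ) / p)⁻¹ := by
  unfold gg hw
  refine prod_congr rfl fun p hp => ?_
  have h := hadm p (Nat.prime_of_mem_primeFactors hp)
  have h1 : (om F p : ℝ) < p := by exact_mod_cast h
  have h0 : (0 : ℝ) ≤ om F p := Nat.cast_nonneg _
  have hp0 : (p : ℝ) ≠ 0 := by linarith
  have h2 : (p : ℝ) - om F p ≠ 0 := by linarith
  rw [show (1 : ℝ) - (om F p : ℝ) / p = (p - om F p) / p by field_simp, inv_div]
  field_simp
  ring

/-- size of the values -/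
theorem value_size (f : ℤ[X]) (hd : 0 < f.natDegree) : ∃ C : ℝ, 0 ≤ C ∧ ∃ n₁ : ℕ, ∀ n : ℕ, n₁ ≤ n →
    |Real.log ((f.eval (n : ℤ)).natAbs : ℝ) - f.natDegree * Real.log n| ≤ C := by
  set F : ℝ[X] := f.map (Int.castRingHom ℝ) with hF
  have h1 := Polynomial.isEquivalent_atTop_lead F
  have h2 := h1.isLittleO.bound (c := 1 / 2) (by norm_num)
  have h3 := (tendsto_natCast_atTop_atTop (R := ℝ)).eventually h2
  obtain ⟨n₁, hn₁⟩ := eventually_atTop.mp h3
  have hdeg : F.natDegree = f.natDegree := natDegree_map_eq_of_injective (RingHom.injective_int _) f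
  have hlead : F.leadingCoeff = (f.leadingCoeff : ℝ) := by
    rw [hF, leadingCoeff_map_of_injective (RingHom.injective_int _)]
    rfl
  have hlc : (f.leadingCoeff : ℝ) ≠ 0 := by
    have : f.leadingCoeff ≠ 0 := by
      rw [Ne, leadingCoeff_eq_zero]
      rintro rfl
      simp at hd
    exact_mod_cast this
  have hlc0 : 0 < |(f.leadingCoeff : ℝ)| := abs_pos.mpr hlc
  refine ⟨|Real.log (|(f.leadingCoeff : ℝ)|)| + Real.log 2, by
    have : 0 < Real.log 2 := Real.log_pos (by norm_num)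
    positivity, n₁ + 1, fun n hn => ?_⟩
  have h4 := hn₁ n (by omega)
  have hn0 : (0 : ℝ) < n := by
    have : 0 < n := by omega
    exact_mod_cast this
  have hev : eval (n : ℝ) F = ((f.eval (n : ℤ) : ℤ) : ℝ) := by
    rw [hF, eval_map]
    have := eval₂_at_apply (p := f) (Int.castRingHom ℝ) (n : ℤ)
    simpa using this
  simp only [Pi.sub_apply, hdeg, hlead] at h4
  rw [hev] at h4
  set v : ℝ := ((f.eval (n : ℤ) : ℤ) : ℝ) with hv
  set w : ℝ := (f.leadingCoeff : ℝ) * (n : ℝ) ^ f.natDegree with hw'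
  rw [Real.norm_eq_abs, Real.norm_eq_abs] at h4
  have hwabs : |w| = |(f.leadingCoeff : ℝ)| * (n : ℝ) ^ f.natDegree := by
    rw [hw', abs_mul, abs_of_nonneg (show (0 : ℝ) ≤ (n : ℝ) ^ f.natDegree by positivity)]
  have hw0 : 0 < |w| := by
    rw [hwabs]
    positivity
  have h8 : |v| = (((f.eval (n : ℤ)).natAbs : ℕ) : ℝ) := by
    rw [hv, Nat.cast_natAbs, Int.cast_abs]
  rw [← h8]
  have h5 : |v| ≤ 2 * |w| := by
    have := abs_sub_abs_le_abs_sub v w
    linarith
  have h6 : |w| / 2 ≤ |v| := by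
    have := abs_sub_abs_le_abs_sub w v
    rw [abs_sub_comm] at this
    linarith
  have hlw : Real.log |w| = Real.log |(f.leadingCoeff : ℝ)| + f.natDegree * Real.log n := by
    rw [hwabs, Real.log_mul hlc0.ne' (by positivity), Real.log_pow]
  have h7 : Real.log |v| ≤ Real.log 2 + Real.log |w| := by
    rw [← Real.log_mul (by norm_num) hw0.ne']
    exact Real.log_le_log (by linarith) h5
  have h9 : Real.log |w| - Real.log 2 ≤ Real.log |v| := by
    rw [← Real.log_div hw0.ne' (by norm_num)]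
    exact Real.log_le_log (by positivity) h6
  have h10 := neg_abs_le (Real.log |(f.leadingCoeff : ℝ)|)
  have h11 := le_abs_self (Real.log |(f.leadingCoeff : ℝ)|)
  rw [abs_le]
  constructor <;> linarith

/-- slow variation of one logarithm -/
theorem slow_one (f : ℤ[X]) (hd : 0 < f.natDegree) (B δ : ℝ) (hδ : 0 < δ) :
    ∀ᶠ X : ℕ in atTop, ∀ y : ℕ, (X : ℝ) / Real.log X ^ B ≤ y → y ≤ X →
      1 ≤ Real.log ((f.eval (y : ℤ)).natAbs : ℝ) ∧
      |Real.log ((f.eval (X : ℤ)).natAbs : ℝ) - Real.log ((f.eval (y : ℤ)).natAbs : ℝ)| ≤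
        δ * Real.log ((f.eval (y : ℤ)).natAbs : ℝ) := by
  obtain ⟨C, hC, n₁, hn₁⟩ := value_size f hd
  set d : ℝ := (f.natDegree : ℝ) with hdr
  have hd1 : (1 : ℝ) ≤ d := by
    rw [hdr]
    exact_mod_cast hd
  have hlogX : Tendsto (fun X : ℕ => Real.log (X : ℝ)) atTop atTop :=
    Real.tendsto_log_atTop.comp tendsto_natCast_atTop_atTop
  have t2 : ∀ᶠ L : ℝ in atTop, (d * |B| + (1 + δ) * (d * |B|)) * Real.log L ≤ δ * d / 2 * L ∧
      |B| * Real.log L ≤ L / 2 := by
    have h1 := Real.isLittleO_log_id_atTop.bound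
      (c := min (δ * d / 2 / (d * |B| + (1 + δ) * (d * |B|) + 1)) (1 / (2 * (|B| + 1)))) (by
        apply lt_min <;> positivity)
    filter_upwards [h1, eventually_ge_atTop (1 : ℝ)] with L h2 h3
    have hl := Real.log_nonneg h3
    rw [id, Real.norm_of_nonneg hl, Real.norm_of_nonneg (by linarith)] at h2
    constructor
    · have e1 : Real.log L ≤ δ * d / 2 / (d * |B| + (1 + δ) * (d * |B|) + 1) * L :=
        h2.trans (mul_le_mul_of_nonneg_right (min_le_left _ _) (by linarith))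
      set G := d * |B| + (1 + δ) * (d * |B|) with hG
      have hG0 : 0 ≤ G := by positivity
      calc G * Real.log L ≤ (G + 1) * Real.log L := mul_le_mul_of_nonneg_right (by linarith) hl
        _ ≤ (G + 1) * (δ * d / 2 / (G + 1) * L) := mul_le_mul_of_nonneg_left e1 (by positivity)
        _ = _ := by field_simp
    · have e1 : Real.log L ≤ 1 / (2 * (|B| + 1)) * L :=
        h2.trans (mul_le_mul_of_nonneg_right (min_le_right _ _) (by linarith))
      calc |B| * Real.log L ≤ (|B| + 1) * Real.log L := mul_le_mul_of_nonneg_right (by linarith) hl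
        _ ≤ (|B| + 1) * (1 / (2 * (|B| + 1)) * L) := mul_le_mul_of_nonneg_left e1 (by positivity)
        _ = _ := by field_simp
  filter_upwards [hlogX.eventually t2, hlogX.eventually_ge_atTop (2 * (C + 1) + 2 * (2 * C + δ * C) / (δ * d) * 2 +
    2 * Real.log (n₁ + 1) + 1), eventually_ge_atTop 2] with X h1 h2 hX2 y hy1 hy2
  obtain ⟨h3, h4⟩ := h1
  set L := Real.log (X : ℝ) with hL
  have hX0 : (0 : ℝ) < X := by
    have : 0 < X := by omega
    exact_mod_cast this
  have hln1 : 0 ≤ Real.log ((n₁ : ℝ) + 1) := Real.log_nonneg (by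
    have : (0 : ℝ) ≤ n₁ := Nat.cast_nonneg _
    linarith)
  have hpos1 : 0 ≤ 2 * (2 * C + δ * C) / (δ * d) * 2 := by positivity
  have hL1 : 1 ≤ L := by linarith
  have hlL : 0 ≤ Real.log L := Real.log_nonneg hL1
  have hLB : 0 < L ^ B := Real.rpow_pos_of_pos (by linarith) _
  have hy0 : (0 : ℝ) < y := lt_of_lt_of_le (by positivity) hy1
  have hyL : L - |B| * Real.log L ≤ Real.log y := by
    have e1 := Real.log_le_log (by positivity) hy1
    rw [Real.log_div hX0.ne' hLB.ne', Real.log_rpow (by linarith)] at e1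
    have e2 : B * Real.log L ≤ |B| * Real.log L := mul_le_mul_of_nonneg_right (le_abs_self B) hlL
    linarith
  have hyX : Real.log y ≤ L := Real.log_le_log hy0 (by exact_mod_cast hy2)
  have hyhalf : L / 2 ≤ Real.log y := by linarith
  have hyn : n₁ ≤ y := by
    have e1 : Real.log ((n₁ : ℝ) + 1) ≤ Real.log y := by linarith
    have e2 : (n₁ : ℝ) + 1 ≤ y := by
      rwa [Real.log_le_log_iff (by positivity) hy0] at e1
    have : (n₁ : ℝ) ≤ y := by linarith
    exact_mod_cast this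
  have a1 := hn₁ y hyn
  have a2 := hn₁ X (hyn.trans hy2)
  rw [← hL] at a2
  rw [abs_le] at a1 a2
  have hdy : Real.log y ≤ d * Real.log y := by
    have : 0 ≤ Real.log y := by linarith
    nlinarith
  refine ⟨by linarith [a1.1], ?_⟩
  have hlow : d * Real.log y - C ≤ Real.log ((f.eval (y : ℤ)).natAbs : ℝ) := by linarith [a1.1]
  have hδlow : δ * (d * Real.log y - C) ≤ δ * Real.log ((f.eval (y : ℤ)).natAbs : ℝ) :=
    mul_le_mul_of_nonneg_left hlow hδ.le
  refine le_trans ?_ hδlow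
  have hdiff : d * (L - Real.log y) ≤ d * (|B| * Real.log L) :=
    mul_le_mul_of_nonneg_left (by linarith) (by linarith)
  have hdiff0 : 0 ≤ d * (L - Real.log y) := mul_nonneg (by linarith) (by linarith)
  have hbnd : |Real.log ((f.eval (X : ℤ)).natAbs : ℝ) - Real.log ((f.eval (y : ℤ)).natAbs : ℝ)| ≤
      d * (|B| * Real.log L) + 2 * C := by
    rw [abs_le]
    constructor
    · linarith [a1.2, a2.1]
    · linarith [a1.1, a2.2]
  refine hbnd.trans ?_
  have hq : 2 * C + δ * C ≤ δ * d / 2 * L := by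
    have e1 : 2 * (2 * C + δ * C) / (δ * d) * 2 ≤ L := by
      have : 0 ≤ 2 * (C + 1) := by positivity
      linarith
    have e2 : 2 * (2 * C + δ * C) / (δ * d) ≤ L := by
      have : 0 ≤ 2 * (2 * C + δ * C) / (δ * d) := by positivity
      linarith
    rw [div_le_iff₀ (by positivity)] at e2
    linarith
  have hfin : δ * d * (L - |B| * Real.log L) ≤ δ * d * Real.log y :=
    mul_le_mul_of_nonneg_left hyL (by positivity)
  have h5 : d * (|B| * Real.log L) + δ * d * (|B| * Real.log L) ≤ δ * d / 2 * L := by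
    refine le_trans ?_ h3
    have : 0 ≤ d * |B| * Real.log L := by positivity
    nlinarith
  nlinarith

/-- products of nearly equal factors -/
theorem prod_near {ι : Type*} (s : Finset ι) (u v : ι → ℝ) {δ : ℝ} (hδ : 0 ≤ δ) (hδ1 : δ ≤ 1)
    (hv : ∀ i ∈ s, 0 ≤ v i) (h : ∀ i ∈ s, |u i - v i| ≤ δ * v i) :
    |∏ i ∈ s, u i - ∏ i ∈ s, v i| ≤ (2 ^ s.card - 1) * δ * ∏ i ∈ s, v i := by
  classical
  induction s using Finset.induction_on with
  | empty => simp
  | insert j s hj ih =>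
    have ih' := ih (fun i hi => hv i (mem_insert_of_mem hi)) (fun i hi => h i (mem_insert_of_mem hi))
    have hj1 := h j (mem_insert_self _ _)
    have hvj := hv j (mem_insert_self _ _)
    have hV : 0 ≤ ∏ i ∈ s, v i := prod_nonneg fun i hi => hv i (mem_insert_of_mem hi)
    rw [prod_insert hj, prod_insert hj, card_insert_of_notMem hj]
    set U := ∏ i ∈ s, u i
    set V := ∏ i ∈ s, v i
    have e1 : u j * U - v j * V = (u j - v j) * (U - V) + (u j - v j) * V + v j * (U - V) := by ring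
    rw [e1]
    have h2 : (1 : ℝ) ≤ 2 ^ s.card := one_le_pow₀ (by norm_num)
    have b1 : |(u j - v j) * (U - V)| ≤ (δ * v j) * ((2 ^ s.card - 1) * δ * V) := by
      rw [abs_mul]
      exact mul_le_mul hj1 ih' (abs_nonneg _) (by positivity)
    have b2 : |(u j - v j) * V| ≤ (δ * v j) * V := by
      rw [abs_mul, abs_of_nonneg hV]
      exact mul_le_mul_of_nonneg_right hj1 hV
    have b3 : |v j * (U - V)| ≤ v j * ((2 ^ s.card - 1) * δ * V) := by
      rw [abs_mul, abs_of_nonneg hvj]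
      exact mul_le_mul_of_nonneg_left ih' hvj
    have b4 : (δ * v j) * ((2 ^ s.card - 1) * δ * V) ≤ v j * ((2 ^ s.card - 1) * δ * V) := by
      apply mul_le_mul_of_nonneg_right
      · nlinarith
      · have : 0 ≤ (2 : ℝ) ^ s.card - 1 := by linarith
        positivity
    have b5 := abs_add_le ((u j - v j) * (U - V) + (u j - v j) * V) (v j * (U - V))
    have b6 := abs_add_le ((u j - v j) * (U - V)) ((u j - v j) * V)
    have b7 : ((2 : ℝ) ^ (s.card + 1) - 1) * δ * (v j * V) =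
        v j * ((2 ^ s.card - 1) * δ * V) + (δ * v j) * V + v j * ((2 ^ s.card - 1) * δ * V) := by
      rw [pow_succ]; ring
    linarith

/-- the density of the main term -/
noncomputable def dens (F : Finset ℤ[X]) (y : ℕ) : ℝ :=
  (y : ℝ) / ∏ f ∈ F, Real.log ((f.eval (y : ℤ)).natAbs : ℝ)

theorem slow (F : Finset ℤ[X]) (hF : ∀ f ∈ F, 0 < f.natDegree) (B η : ℝ) (hη : 0 < η) :
    ∀ᶠ X : ℕ in atTop, 0 < (∏ f ∈ F, Real.log ((f.eval (X : ℤ)).natAbs : ℝ))⁻¹ ∧
      ∀ y : ℕ, (X : ℝ) / Real.log X ^ B ≤ y → y ≤ X →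
      |dens F y - (∏ f ∈ F, Real.log ((f.eval (X : ℤ)).natAbs : ℝ))⁻¹ * y| ≤
        η * ((∏ f ∈ F, Real.log ((f.eval (X : ℤ)).natAbs : ℝ))⁻¹ * y) := by
  set δ : ℝ := min 1 (η / 2 ^ F.card) with hδ
  have hδ0 : 0 < δ := lt_min one_pos (by positivity)
  have h1 : ∀ᶠ X : ℕ in atTop, ∀ f ∈ F, ∀ y : ℕ, (X : ℝ) / Real.log X ^ B ≤ y → y ≤ X →
      1 ≤ Real.log ((f.eval (y : ℤ)).natAbs : ℝ) ∧
      |Real.log ((f.eval (X : ℤ)).natAbs : ℝ) - Real.log ((f.eval (y : ℤ)).natAbs : ℝ)| ≤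
        δ * Real.log ((f.eval (y : ℤ)).natAbs : ℝ) := by
    rw [Finset.eventually_all]
    intro f hf
    exact slow_one f (hF f hf) B δ hδ0
  have h1' : ∀ᶠ X : ℕ in atTop, ∀ f ∈ F, 1 ≤ Real.log ((f.eval (X : ℤ)).natAbs : ℝ) := by
    rw [Finset.eventually_all]
    intro f hf
    filter_upwards [slow_one f (hF f hf) 0 1 one_pos] with X hX
    exact (hX X (by simp) le_rfl).1
  filter_upwards [h1, h1'] with X hX hX'
  have hPX : 0 < ∏ f ∈ F, Real.log ((f.eval (X : ℤ)).natAbs : ℝ) :=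
    prod_pos fun f hf => by linarith [hX' f hf]
  refine ⟨inv_pos.mpr hPX, fun y hy1 hy2 => ?_⟩
  have hPy : 0 < ∏ f ∈ F, Real.log ((f.eval (y : ℤ)).natAbs : ℝ) :=
    prod_pos fun f hf => by linarith [(hX f hf y hy1 hy2).1]
  have hnear := prod_near F (fun f => Real.log ((f.eval (X : ℤ)).natAbs : ℝ))
    (fun f => Real.log ((f.eval (y : ℤ)).natAbs : ℝ)) hδ0.le (min_le_left _ _)
    (fun f hf => by linarith [(hX f hf y hy1 hy2).1]) (fun f hf => (hX f hf y hy1 hy2).2)
  set PX := ∏ f ∈ F, Real.log ((f.eval (X : ℤ)).natAbs : ℝ)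
  set Py := ∏ f ∈ F, Real.log ((f.eval (y : ℤ)).natAbs : ℝ)
  have hδη : (2 ^ F.card - 1) * δ ≤ η := by
    have e1 : δ ≤ η / 2 ^ F.card := min_le_right _ _
    have e2 : (0 : ℝ) < 2 ^ F.card := by positivity
    rw [le_div_iff₀ e2] at e1
    nlinarith
  have hn2 : |PX - Py| ≤ η * Py := hnear.trans (mul_le_mul_of_nonneg_right hδη hPy.le)
  have hy0 : (0 : ℝ) ≤ y := Nat.cast_nonneg _
  unfold dens
  have e1 : (y : ℝ) / Py - PX⁻¹ * y = (PX - Py) * (PX⁻¹ * y / Py) := by
    field_simp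
  rw [e1, abs_mul, abs_of_nonneg (by positivity : 0 ≤ PX⁻¹ * y / Py)]
  calc |PX - Py| * (PX⁻¹ * y / Py) ≤ (η * Py) * (PX⁻¹ * y / Py) :=
        mul_le_mul_of_nonneg_right hn2 (by positivity)
    _ = η * (PX⁻¹ * y) := by field_simp

end Pool.Agent.H537.FG
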